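import Pool.Agent.H882.FyType
import Pool.Agent.H882.NvSep
import Pool.Agent.H882.FyDvg
import Pool.Agent.H882.NfLoc
import Pool.Agent.H882.FmFam

/-!
# MP_d83ecd_ag: the Zilber-Pink conjecture for the families of subvarieties of `Y(1)^n` which degenerate
at a given Hodge generic algebraic point

`Y(1)^n` is identified with `ℂ^n` by the elliptic modular function `jj = j = E₄³ / Δ`.

**The families.** Let `X_(t,λ) ⊂ ℂ^n` be a family of sets of dimension `m` over a field `F ⊂ ℂ`, with
parameters `t ∈ ℕ`, `λ ∈ ℂ^q` (`Family`, `Family.member`), which degenerates for `t = 0` to the union of the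
`m`-dimensional coordinate subspaces: for every set `J` of `m + 1` coordinates there is an equation

  `lead_J ∏_(i ∈ J) x_i ^ e_(J,i) + t rest_J (λ, x) = 0`,  `0 ≠ lead_J ∈ F`,

with a polynomial `rest_J` over `F` of degree at most `e_(J,i)` in `x_i`. For example this is true for the
homothetic images `t λ V` (`λ` a number) of an arbitrary subvariety `V` of dimension `m` in general
position at infinity, that is, such that for each `J` there is an equation of `V` in the `x_i`, `i ∈ J`,
which contains the monomial of maximal exponents (all `V` have this property after a general projective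
linear transformation in each coordinate; here `F` is a field of definition of `V`, for example `F = ℂ`),
and for the hypersurfaces `x_1^a_1 ⋯ x_n^a_n = t g (λ, x)`.

**Theorem** (`result`). (I) Every residue class `c₀ mod N` of `ℤ^n` contains a residue class `c mod M`, all
elements `s` of which have coordinates `s_i ≠ 0, 1728` and satisfy the Galois condition `Separated` below.

(II) Let `s` be a point of `Y(1)^n` with algebraic coordinates `s_i ≠ 0, 1728` which
satisfies `Separated`. There are `n + 1` sets `P_0, …, P_n` of prime numbers,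
such that the sum of the reciprocals of the elements of each `P_a` is divergent, and a set `N ⊂ ℕ` of
density zero with the following properties. Let `F` be any subfield of `ℂ`, and `X` any family over `F` as
above, of any dimension `m` and with any number `q` of parameters.
(A) There is a number `B` such that the translate `s + X_(t,λ)` has no atypical intersection over `F` with
special subvarieties of `Y(1)^n` (`NoAtypical`), for all `t` which are divisible by an element `p_a > B` of
`P_a` for each `a`, and for all algebraic integers `λ_i`.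
(B) There is a number `T` such that the same is true for all `t ≥ T`, `t ∉ N`.

`NoAtypical F m Y` means that for each point `y` of `Y ∩ Z`, `Z` special of dimension `r`, the sets of
coordinates of `y` which are algebraically independent over `F` have at most `m + r - n` elements (so there
is no such point if `r < n - m`). We can assume that `F` is countable, and then every component `W` of
`V ∩ Z`, `V ⊂ s + X_(t,λ)` a subvariety of dimension `m` (over `F` and algebraic numbers), has a point whose
coordinates generate a field of transcendence degree `dim W` over `F`. So `dim W ≤ m + r - n`, and `V` has no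
atypical subvarieties: Q1 is true for `V`, with the empty set.

**The centre.** The elements of `neighbours ℓ s_k` are the `j`-invariants of the quotients `E_k / C`, where
`E_k` is an elliptic curve over the number field `K = ℚ (s_1, …, s_n)` with `j (E_k) = s_k` and `C` runs through
the `ℓ + 1` subgroups of order `ℓ`. `Separated s` says that there are primes `ℓ_(a,i) ≡ 1 mod 4`
(`a = 0, …, n`, `i = 1, …, n`) with `ℓ_(a,i) + 1` different neighbours of each `s_k`, and automorphisms `σ_a` of `ℂ`
which fix the `s_k` and the roots of unity of order `ℓ_(a,i)`, such that `σ_b` fixes no `ℓ_(a,i)`-neighbour of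
`s_k` if `(b,k) = (a,i)`, and exactly two of them otherwise. By (I) the theorem is true without any
hypothesis for a set of integral points of positive density, which contains an open dense subset of `ℤ^n`
for the congruence topology. *Moreover all Hodge generic points `s` with algebraic coordinates satisfy the condition by Serre's
open image theorem* (this is not proved here, and it is only used for this remark): if the `E_k` are
without complex multiplication and pairwise not isogenous
over the algebraic closure, the image of the absolute Galois group of the field generated by `K` and all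
roots of unity in `∏_ℓ ∏_k SL_2 (𝔽_ℓ)` is everything for each finite set of sufficiently large primes `ℓ`
(Serre, Propriétés galoisiennes des points d'ordre fini des courbes elliptiques, for two curves together
with Faltings' isogeny theorem; for several curves and primes by the lemmas of Goursat and Ribet, since
the groups `PSL_2 (𝔽_ℓ)` are simple and not isomorphic to each other). So we can prescribe that `σ_b` acts
on `E_k [ℓ_(a,i)]` by an element of `SL_2` without eigenvectors for `(b,k) = (a,i)`, and by `diag (u, 1/u)`,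
`u^2 ≠ 1`, otherwise. Therefore the theorem holds for all Hodge generic points `s` of `Y(1)^n` with algebraic
coordinates. The condition that `s` is Hodge generic is natural, since the families degenerate to
unions of coordinate subspaces through the point `s`.

**Relation to earlier results.** Our results `MP_d83ecd_ag.IntegralCentres`,
`MP_22337f_ag.IntegralCentresOverC`, `MP_defd1c_ag.MoebiusTranslates`,
`MP_eeb1a4_ag.DegeneratingFamilies`, `MP_0704bf_ag.NumberFieldCentres` are about almost all pairs
`(s, t)`: the exceptional pairs form a null set of `ℤ^n × ℕ` (or `𝓞_K^n × ℕ`). They say nothing about a given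
centre `s`, and nothing about centres whose coordinates are not integral. In
`MP_d83ecd_ag.OrdinaryAndMultiplicativeCentres` (B) the centre is given, and `t` is divisible by a high
power, which depends on the variety, of one prime number at which the coordinates of `s` have ordinary
and not isogenous reductions. Here the centre is an arbitrary given Hodge generic algebraic point, and
almost all `t` are allowed. For a given `s` there is no equidistribution of the classes `s mod p`, and
one has to find many primes `p` such that the reductions of the curves `E_k` modulo `p` are ordinary and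
geometrically not isogenous to each other, and such that their canonical lifts for different primes are
not isogenous.

**Idea of the proof.** By Chebotarev's theorem for the Galois closure of the field generated by the
neighbours, for each `b` the sum of the reciprocals of the primes `p` for which `σ_b` is the Frobenius of a
suitable prime `𝔭` above `p` is divergent. Since `σ_b` fixes `s_k`, the residue of `s_k` is in `𝔽_p`. Let `z` be a
canonical lift of `s_k` at such a prime (a singular modulus `z ≡ s_k mod 𝔭` with an endomorphism `π` of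
degree `p` and trace `a`). By Kronecker's congruence for isogenies (proved here with the
`q`-expansions) the neighbours of `s_k` with `y^p ≡ y` correspond to the eigenlines of `π` modulo `ℓ`. So
the discriminant `D_(p,k) = a² - 4 p` is a nonresidue modulo `ℓ_(a,i)` if `(b,k) = (a,i)`, and a nonzero
quadratic residue otherwise; `p ≡ 1 mod ℓ_(a,i)` implies that the reductions are ordinary. Isogenous
singular moduli have discriminants whose product is a square, so for different `k`, and for the same `k`
and primes of different types `b`, the canonical lifts are not isogenous. If `t` is divisible by large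
primes `p_0, …, p_n` of the `n + 1` types, one of them is good for a given atypical point: the
coordinates which are near to `s_k` are not isogenous to each other, and no coordinate is a singular
modulus near to `s_k` for two different types.

*Proof of (I)* (for `N = 1`). Choose different primes `ℓ_(a,i) ≡ 1 mod 4`, a larger prime `r`, then by Dirichlet's theorem
large primes `p_0, …, p_n` with `p_b ≡ 1 mod 11 ∏ ℓ_(a,i)` and `p_b ≡ 1 + r mod r²`, and traces `a_(b,k)` such that
`D_(b,k) = a_(b,k)² - 4 p_b` is divisible by `r` exactly once and has the quadratic characters modulo the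
`ℓ_(a,i)` prescribed above. Let `τ² - a_(b,k) τ + p_b = 0`. By Kronecker's congruence the singular modulus `j (τ)`
is congruent to an integer `c_(b,k)` modulo a prime `𝔭` above `p_b`, and `M = ∏ p_b`, `c ≡ c_(b,k) mod p_b`. Two
neighbours of `j (τ)` are not congruent modulo `𝔭`: otherwise `j (τ)` is congruent to one of finitely many
singular moduli with a discriminant `D'`, `|D'| ≤ 4 ℓ² < r` (the zeros of `∏ (y - y')` as a polynomial in `j`), the
two are isogenous, since `j (τ)` is ordinary, and `D_(b,k) D'` is a square. Similarly `j (τ)` is not congruent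
to `0` or `1728` (here one compares the fixed neighbours of order `11`). Therefore the Frobenius
automorphism at `𝔭` permutes the neighbours of `s_k` as the endomorphism `(a_(b,k), -p_b; 1, 0)` permutes the
lines modulo `ℓ_(a,i)`, which has no eigenvector or exactly two eigenlines.
-/

set_option autoImplicit false

namespace Pool.Agent.Results.MP_d83ecd_ag.FixedCentres

open UpperHalfPlane H294ZP Polynomial

/-- A special subvariety of dimension `r` of `Y(1)^n`: a map `cls` from the coordinates onto `r`
classes (`none` for the constant coordinates), an integral matrix of positive determinant for each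
coordinate, and a CM point for each coordinate. -/
structure SpecialVariety (n r : ℕ) where
  cls : Fin n → Option (Fin r)
  surj : ∀ l : Fin r, ∃ i, cls i = some l
  mat : Fin n → Matrix (Fin 2) (Fin 2) ℤ
  det_pos : ∀ i, 0 < (mat i).det
  cm : Fin n → ℍ
  isCM : ∀ i, IsCM (cm i)

/-- The points of a special subvariety: the constant coordinates are the singular moduli
`j (cm i)`, the other coordinates are `j (g_i z_l)`, where `l` is the class of `i`, `g_i = mat i` and
`z_1, …, z_r` are free parameters in the upper half plane. -/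
def SpecialVariety.locus {n r : ℕ} (Z : SpecialVariety n r) : Set (Fin n → ℂ) :=
  {x | ∃ z : Fin r → ℍ, ∀ i, (Z.cls i = none → x i = jj (Z.cm i)) ∧
    ∀ l, Z.cls i = some l → ∃ w : ℍ,
      (w : ℂ) * (Z.mat i 1 0 * z l + Z.mat i 1 1) = Z.mat i 0 0 * z l + Z.mat i 0 1 ∧ x i = jj w}

/-- For each special subvariety `Z` of dimension `r`, and each point `y` of `Y ∩ Z`: families of
coordinates which are algebraically independent over `F` have at most `m + r - n` elements (in
particular there is no such point if `m + r < n`). -/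
def NoAtypical {n : ℕ} (F : Subfield ℂ) (m : ℕ) (Y : Set (Fin n → ℂ)) : Prop :=
  ∀ (r : ℕ) (Z : SpecialVariety n r), ∀ y ∈ Y, y ∈ Z.locus →
    ∀ W : Finset (Fin n), AlgebraicIndependent F (fun i : W => y i) → n + W.card ≤ m + r

/-- A family of subsets of `ℂ^n` of dimension `m` over the field `F`, with parameters `t ∈ ℕ`, `λ ∈ ℂ^q`,
which degenerates for `t = 0` to the union of the coordinate subspaces of dimension `m`: for each set
`J` of `m + 1` coordinates there is an equation
`lead_J ∏_(i ∈ J) x_i ^ (expo_J i) + t rest_J (λ, x) = 0`, `0 ≠ lead_J ∈ F`, with a polynomial `rest_J`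
over `F` of degree at most `expo_J i` in `x_i`. -/
structure Family (F : Subfield ℂ) (n q m : ℕ) where
  expo : Finset (Fin n) → Fin n → ℕ
  lead : Finset (Fin n) → F
  rest : Finset (Fin n) → MvPolynomial (Fin q ⊕ Fin n) F
  expo_eq_zero : ∀ J i, i ∉ J → expo J i = 0
  lead_ne_zero : ∀ J, lead J ≠ 0
  degree_le : ∀ J i, (rest J).degreeOf (Sum.inr i) ≤ expo J i

/-- The member of the family with the parameters `t, λ`. -/
def Family.member {F : Subfield ℂ} {n q m : ℕ} (X : Family F n q m) (t : ℕ) (lam : Fin q → ℂ) :
    Set (Fin n → ℂ) :=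
  {x | ∀ J : Finset (Fin n), J.card = m + 1 →
    (X.lead J : ℂ) * ∏ i, x i ^ X.expo J i +
      (t : ℂ) * MvPolynomial.aeval (Sum.elim lam x) (X.rest J) = 0}

/-- The translate `s + X`. -/
def translate {n : ℕ} (s : Fin n → ℂ) (X : Set (Fin n → ℂ)) : Set (Fin n → ℂ) :=
  {y | (fun i => y i - s i) ∈ X}

/-- The numbers `j (g τ)`, where `j (τ) = s` and `g` is an integral matrix of determinant `ℓ`: the
`j`-invariants of the quotients by subgroups of order `ℓ` of an elliptic curve with `j`-invariant `s`. -/
def neighbours (ℓ : ℕ) (s : ℂ) : Set ℂ :=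
  {y | ∃ (g : Matrix (Fin 2) (Fin 2) ℤ) (τ w : ℍ), g.det = ℓ ∧
    (w : ℂ) * (g 1 0 * τ + g 1 1) = g 0 0 * τ + g 0 1 ∧ jj τ = s ∧ jj w = y}

/-- The Galois condition for the centre: there are primes `ℓ_(a,i) ≡ 1 mod 4` (`a = 0, …, n`) with
`ℓ_(a,i) + 1` neighbours of each `s_k`, and automorphisms `σ_a` of `ℂ` which fix the `s_k` and the roots of unity
of order `ℓ_(a,i)`, such that `σ_b` fixes no `ℓ_(a,i)`-neighbour of `s_k` if `(b, k) = (a, i)`, and exactly two of
them otherwise. -/
def Separated {n : ℕ} (s : Fin n → ℂ) : Prop :=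
  ∃ (ℓ : Fin (n + 1) → Fin n → ℕ) (σ : Fin (n + 1) → ℂ ≃+* ℂ),
    (∀ a k, σ a (s k) = s k) ∧
    (∀ a i, (ℓ a i).Prime ∧ ℓ a i % 4 = 1 ∧ σ a (Complex.exp (2 * Real.pi * Complex.I / ℓ a i)) =
      Complex.exp (2 * Real.pi * Complex.I / ℓ a i)) ∧
    (∀ a i k, (neighbours (ℓ a i) (s k)).ncard = ℓ a i + 1) ∧
    (∀ a i, ∀ y ∈ neighbours (ℓ a i) (s i), σ a y ≠ y) ∧
    ∀ a i b k, (b, k) ≠ (a, i) → {y | y ∈ neighbours (ℓ a i) (s k) ∧ σ b y = y}.ncard = 2

/-- `N` has density zero. -/
def DensityZero (N : Set ℕ) : Prop :=
  ∀ ε : ℝ, 0 < ε → ∃ H₀ : ℕ, ∀ H : ℕ, H₀ ≤ H → ((N ∩ Set.Icc 0 H).ncard : ℝ) ≤ ε * H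

open Pool.Agent.H882 Pool.Agent.Y226

theorem indep_restrict {F₀ F : Subfield ℂ} (h : F₀ ≤ F) {ι : Type} {y : ι → ℂ}
    (hy : AlgebraicIndependent F y) : AlgebraicIndependent F₀ y := by
  let : Algebra F₀ F := (Subfield.inclusion h).toAlgebra
  have : IsScalarTower F₀ F ℂ := IsScalarTower.of_algebraMap_eq fun x => rfl
  exact hy.restrictScalars (algebraMap F₀ F).injective

theorem main (n : ℕ) (s : Fin n → ℂ) (hs : ∀ i, IsAlgebraic ℚ (s i) ∧ s i ≠ 0 ∧ s i ≠ 1728)
    (hsep : Separated s) :
    ∃ (P : Fin (n + 1) → Set ℕ) (N : Set ℕ),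
      (∀ a, (∀ p ∈ P a, p.Prime) ∧ ¬ Summable ((P a).indicator fun p : ℕ => (1 : ℝ) / p)) ∧
      DensityZero N ∧
      ∀ (F : Subfield ℂ) (m q : ℕ) (X : Family F n q m),
        (∃ B : ℕ, ∀ t : ℕ, (∀ a, ∃ p ∈ P a, B < p ∧ p ∣ t) →
          ∀ lam : Fin q → ℂ, (∀ i, IsIntegral ℤ (lam i)) →
            NoAtypical F m (translate s (X.member t lam))) ∧
        ∃ T : ℕ, ∀ t : ℕ, T ≤ t → t ∉ N →
          ∀ lam : Fin q → ℂ, (∀ i, IsIntegral ℤ (lam i)) →
            NoAtypical F m (translate s (X.member t lam)) := by
  classical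
  obtain ⟨ℓ, σ, hsep'⟩ := hsep
  obtain ⟨s', hs'⟩ : ∃ s' : Fin n → QA, ∀ i, (s' i : ℂ) = s i :=
    ⟨fun i => ⟨s i, mem_QA.2 (hs i).1⟩, fun _ => rfl⟩
  obtain rfl : s = fun i => (s' i : ℂ) := funext fun i => (hs' i).symm
  obtain ⟨P, Γ, hP, hPd, hloc, hdis⟩ := fy_local (s := s') (fun i =>
    ⟨fun h => (hs i).2.1 (congrArg (fun z : QA => (z : ℂ)) h),
      fun h => (hs i).2.2 (congrArg (fun z : QA => (z : ℂ)) h)⟩)
    (ℓ := ℓ) (σ := σ) hsep'
  obtain ⟨N, hN, hNT⟩ := fx_null P hP hPd
  refine ⟨P, N, fun a => ⟨hP a, (hPd a).not_summable⟩, hN, fun F m q X => ?_⟩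
  have hmain : ∃ B : ℕ, ∀ t : ℕ, (∀ a, ∃ p ∈ P a, B < p ∧ p ∣ t) →
      ∀ lam : Fin q → ℂ, (∀ i, IsIntegral ℤ (lam i)) →
        NoAtypical F m (translate (fun i => (s' i : ℂ)) (X.member t lam)) := ?_
  · refine ⟨hmain, ?_⟩
    obtain ⟨B, hB⟩ := hmain
    obtain ⟨T, hT⟩ := hNT B
    exact ⟨T, fun t ht htN lam hlam => hB t (hT t ht htN) lam hlam⟩
  let S : Finset ℂ := (Finset.univ.image fun J : Finset (Fin n) => ((X.lead J : F) : ℂ)) ∪
    Finset.univ.biUnion fun J : Finset (Fin n) =>
      (X.rest J).support.image fun v => (((X.rest J).coeff v : F) : ℂ)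
  have hne : ∀ c : F, c ≠ 0 → (c : ℂ) ≠ 0 := fun c hc h => hc (Subtype.ext h)
  have hS0 : ∀ b ∈ S, b ≠ 0 := by
    intro b hb
    rcases Finset.mem_union.1 hb with hb | hb
    · obtain ⟨J, -, rfl⟩ := Finset.mem_image.1 hb
      exact hne _ (X.lead_ne_zero J)
    · obtain ⟨J, -, hJ⟩ := Finset.mem_biUnion.1 hb
      obtain ⟨v, hv, rfl⟩ := Finset.mem_image.1 hJ
      exact hne _ (MvPolynomial.mem_support_iff.1 hv)
  have hSF : ∀ b ∈ S, b ∈ F := by
    intro b hb
    rcases Finset.mem_union.1 hb with hb | hb
    · obtain ⟨J, -, rfl⟩ := Finset.mem_image.1 hb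
      exact Subtype.property _
    · obtain ⟨J, -, hJ⟩ := Finset.mem_biUnion.1 hb
      obtain ⟨v, hv, rfl⟩ := Finset.mem_image.1 hJ
      exact Subtype.property _
  obtain ⟨F₀, hF₀⟩ : ∃ F₀ : Subfield ℂ, F₀ = Subfield.closure (S : Set ℂ) := ⟨_, rfl⟩
  have hF₀F : F₀ ≤ F := by
    rw [hF₀, Subfield.closure_le]
    exact fun b hb => hSF b hb
  have hF₀c : Cardinal.mk F₀ ≤ Cardinal.aleph0 := by
    rw [hF₀]
    refine (Subfield.cardinalMk_closure_le_max _).trans (max_le ?_ le_rfl)
    exact (Cardinal.lt_aleph0_of_finite _).le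
  obtain ⟨B, hB⟩ := emb_units hF₀c S hS0 fun b hb => by
    rw [hF₀]
    exact Subfield.subset_closure hb
  refine ⟨B + (∑ J, ∑ i, X.expo J i) + 1, fun t ht lam hlam => ?_⟩
  intro rr Z y hy hyZ W hind
  choose g hgP hgB hgt using ht
  -- one type is good
  obtain ⟨a, ha⟩ : ∃ a : Fin (n + 1), ∀ i, y i ∉ Γ a (g a) i := by
    by_contra hno
    push Not at hno
    choose e he using hno
    obtain ⟨a, b, hab, heab⟩ := Fintype.exists_ne_map_eq_of_card_lt e (by simp)
    refine hdis a b hab (g a) (hgP a) (g b) (hgP b) (e a) (y (e a)) (he a) ?_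
    rw [heab]
    exact he b
  obtain ⟨p, hpg⟩ : ∃ p, p = g a := ⟨_, rfl⟩
  have hpP := hgP a
  have hpB := hgB a
  have hpt := hgt a
  rw [← hpg] at hpP hpB hpt ha
  have p1 := hP a p hpP
  obtain ⟨C', i1, i2, i3, i4, i5, φ₀, hpC, hCC⟩ := hloc a p hpP
  have : Fact p.Prime := ⟨p1⟩
  have hp1 : ‖(p : C')‖ < 1 := by
    rw [hpC]
    exact inv_lt_one_of_one_lt₀ (by exact_mod_cast p1.one_lt)
  have hp0 : 0 < ‖(p : C')‖ := by
    rw [hpC]
    exact inv_pos.2 (by exact_mod_cast p1.pos)
  refine open_local p1 φ₀ hpC hCC (F := F₀) (m := m) y ha (fun {_} _ y' hy' a' => ?_)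
    ⟨Z.cls, Z.surj, Z.mat, Z.det_pos, Z.cm, Z.isCM⟩ hyZ W (indep_restrict hF₀F hind)
  obtain ⟨Φ, g1, g2, g3⟩ := hB p p1 (by omega) C' φ₀ hpC y' hy' a'
  obtain ⟨x, hx⟩ : ∃ x : Fin n → ℂ, x = fun i => y i - s' i := ⟨_, rfl⟩
  have hxm : x ∈ X.member t lam := by
    rw [hx]
    exact hy
  refine ⟨Φ, g1, g2, Finset.univ.filter fun i => ¬ ‖Φ (x i)‖ ^ (p - 1) < ‖(p : C')‖,
    ?_, fun i hi => ?_⟩
  · by_contra hcard
    rw [not_le] at hcard
    obtain ⟨J, hJ1, hJ2⟩ := Finset.exists_subset_card_eq (Nat.succ_le_of_lt hcard)
    have hmem := hxm J hJ2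
    have key : ∃ i ∈ J, ‖Φ (x i)‖ ^ (p - 1) < ‖(p : C')‖ := by
      refine one_J (p := p) (N := 0) (M := 0) hp1 hp0 Φ J (X.expo J) (X.expo_eq_zero J)
        (X.lead J : ℂ) ?_
        (MvPolynomial.rename Sum.inr (MvPolynomial.map (algebraMap F ℂ) (X.rest J))) ?_ ?_
        (fun i => i.elim0) (fun i => i.elim0) lam
        (fun i => norm_le_one_of_isIntegral Φ (hlam i)) x (t : ℂ) ?_ ?_ ?_
      · exact g3 _ (Finset.mem_union_left _ (Finset.mem_image_of_mem _ (Finset.mem_univ J)))
      · intro v hv
        obtain ⟨v', rfl, hv'⟩ := MvPolynomial.coeff_rename_ne_zero _ _ _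
          (MvPolynomial.mem_support_iff.1 hv)
        rw [MvPolynomial.coeff_rename_mapDomain _ Sum.inr_injective, MvPolynomial.coeff_map]
        rw [MvPolynomial.coeff_map] at hv'
        refine (g3 _ (Finset.mem_union_right _ (Finset.mem_biUnion.2 ⟨J, Finset.mem_univ J,
          Finset.mem_image.2 ⟨v', ?_, rfl⟩⟩))).le
        rw [MvPolynomial.mem_support_iff]
        intro h
        rw [h, map_zero] at hv'
        exact hv' rfl
      · intro i
        rw [MvPolynomial.degreeOf_rename_of_injective Sum.inr_injective,
          MvPolynomial.degreeOf_le_iff]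
        intro v hv
        exact (MvPolynomial.monomial_le_degreeOf _
          (MvPolynomial.support_map_subset _ _ hv)).trans (X.degree_le J i)
      · obtain ⟨c', hc'⟩ := hpt
        rw [hc', map_natCast]
        push_cast
        rw [norm_mul]
        refine mul_le_of_le_one_right (norm_nonneg _) ?_
        simpa using IsUltrametricDist.norm_intCast_le_one C' (c' : ℤ)
      · rw [MvPolynomial.eval_rename, MvPolynomial.eval_map, ← MvPolynomial.aeval_def]
        exact hmem
      · have h1 : ∑ i, X.expo J i ≤ ∑ J, ∑ i, X.expo J i :=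
          Finset.single_le_sum (f := fun J => ∑ i, X.expo J i) (fun _ _ => Nat.zero_le _)
            (Finset.mem_univ J)
        omega
    obtain ⟨i, hi, hi'⟩ := key
    exact (Finset.mem_filter.1 (hJ1 hi)).2 hi'
  · have hi' : ‖Φ (x i)‖ ^ (p - 1) < ‖(p : C')‖ := by
      by_contra h1
      exact hi (Finset.mem_filter.2 ⟨Finset.mem_univ _, h1⟩)
    have h2 := wk_lt_one hp1 hi'
    rw [hx, map_sub, g1] at h2
    exact h2

/-- The theorem. -/
theorem result (n : ℕ) :
    (∀ (N : ℕ) (c₀ : Fin n → ℤ), 0 < N → ∃ (M : ℕ) (c : Fin n → ℤ), 0 < M ∧ N ∣ M ∧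
      (∀ i, (N : ℤ) ∣ c i - c₀ i) ∧ ∀ s : Fin n → ℤ, (∀ i, (M : ℤ) ∣ s i - c i) →
        (∀ i, s i ≠ 0 ∧ s i ≠ 1728) ∧ Separated fun i => (s i : ℂ)) ∧
    ∀ s : Fin n → ℂ, (∀ i, IsAlgebraic ℚ (s i) ∧ s i ≠ 0 ∧ s i ≠ 1728) → Separated s →
    ∃ (P : Fin (n + 1) → Set ℕ) (N : Set ℕ),
      (∀ a, (∀ p ∈ P a, p.Prime) ∧ ¬ Summable ((P a).indicator fun p : ℕ => (1 : ℝ) / p)) ∧
      DensityZero N ∧
      ∀ (F : Subfield ℂ) (m q : ℕ) (X : Family F n q m),
        (∃ B : ℕ, ∀ t : ℕ, (∀ a, ∃ p ∈ P a, B < p ∧ p ∣ t) →
          ∀ lam : Fin q → ℂ, (∀ i, IsIntegral ℤ (lam i)) →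
            NoAtypical F m (translate s (X.member t lam))) ∧
        ∃ T : ℕ, ∀ t : ℕ, T ≤ t → t ∉ N →
          ∀ lam : Fin q → ℂ, (∀ i, IsIntegral ℤ (lam i)) →
            NoAtypical F m (translate s (X.member t lam)) := by
  refine ⟨?_, fun s hs hsep => main n s hs hsep⟩
  intro N c₀ hN
  obtain ⟨M, c, hM, hNM, hc, h⟩ := dense_sep n N hN c₀
  refine ⟨M, c, hM, hNM, hc, fun s hs => ?_⟩
  obtain ⟨h0, ℓ, σ, hsep⟩ := h s hs
  exact ⟨h0, ℓ, σ, hsep⟩

end Pool.Agent.Results.MP_d83ecd_ag.FixedCentres
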