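import Pool.Agent.H882.Almost

/-!
# MP_d83ecd_ag: Zilber-Pink for almost all homothetic images `s + t Y` of subvarieties of any
dimension, with centre a CM point `s` of `Y(1)^n`

`Y(1)^n` is identified with `ℂ^n` by the elliptic modular function `jj = j = E₄³ / Δ`.

**The centre.** Let `K` be a number field, `σ : K → ℂ`, and `s` a CM point of `Y(1)^n` over `K`
whose coordinates `s_i = j (τ_i)` are different from `0`, `1728` and pairwise not isogenous (the CM
fields are pairwise different). One coordinate `s_c` is also allowed to be the cusp `∞`.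

**The subvarieties.** `Y ⊆ ℂ^n` is a subvariety over `K` of dimension `m`, or any set, which is in
general position at infinity (`InGeneralPosition`): for each set `J` of `m + 1` coordinates there is
an equation `G_J (y_j, j ∈ J) = 0` for `Y`, over `𝓞 K`, which contains the monomial `∏ y_j ^ d_j` in
which all the exponents are maximal. (So no `m + 1` coordinates become infinite at the same point
of the closure of `Y` in `(P¹)^n`. This implies that the dimension of `Y` is at most `m`.)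

**The images.** For `λ ∈ K^n` let `X = s + λ Y` be the set of all `x` with `x_i = s_i + λ_i y_i` for
`y ∈ Y` (and `x_c = 1 / (λ_c y_c)` if `s_c = ∞`).

**The conclusion** `ZilberPink s X m`: for each special subvariety `Z` of dimension `r` and each
point `x ∈ X ∩ Z` the transcendence degree of `x` is at most `m + r - n + #{i : x_i = s_i}`. So each
atypical component of an intersection of `X` and a special subvariety is contained in one of the at
most `n` proper special subvarieties `x_i = s_i`: this is the statement of Q1 for `X`, with an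
explicit list of special subvarieties. `X` has no atypical intersection outside of them.

**Theorem.**
(A) `ZilberPink s (s + λ Y) m` holds if there is a prime `v` of `K` above an odd prime `p`, such
that the coordinates of `s` are ordinary at `p` and not congruent to `0`, `1728` modulo `v`, the
leading coefficients of the `G_J` are units at `v`, and `v(λ_i) > 0`, `(p - 1) v(λ_i) > v(p)`.
(B) There is `D > 0`, which depends on `s` only, and for each `Y` a bound `B`, such that
`ZilberPink s (s + λ Y) m` holds for all `λ ∈ K^n` with `v(λ_i) > 0` for all `i`, for one prime `v` of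
`K` above a prime `p > B`, `p ≡ 1` modulo `D`.
(C) There is a set `E` of density zero of positive integers, which depends on `s` only, such that
for all `m` and `Y`, for all but finitely many integers `t ∉ E`, `ZilberPink s (s + (t c) Y) m` holds
for all vectors `c ∈ (𝓞 K)^n` at the same time.

So for one hundred percent of the integers `t`, the subvarieties `s + t Y` satisfy the conjecture
of Zilber and Pink. The proof uses the theory of the canonical isogeny near ordinary CM points of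
`Pool.Agent.N135.ZO` (the local part of `MP_d83ecd_ag.OrdinaryPlace`), the fact that CM points are
ordinary at the primes `p ≡ 1` modulo `4 |disc|`, and the divergence of the sum of the reciprocals
of the primes in residue classes.
-/

set_option autoImplicit false

namespace Pool.Agent.Results.MP_d83ecd_ag.HomothetiesAboutCMPoints

open UpperHalfPlane H294ZP NumberField IsDedekindDomain

/-- A special subvariety of dimension `r` of `Y(1)^n`: a map `cls` from the coordinates onto `r`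
classes (`none` for the constant coordinates), an integral matrix of positive determinant for each
coordinate, and a CM point for each coordinate. -/
structure SpecialVariety (n r : ℕ) where
  cls : Fin n → Option (Fin r)
  surj : ∀ l : Fin r, ∃ i, cls i = some l
  mat : Fin n → Matrix (Fin 2) (Fin 2) ℤ
  det_pos : ∀ i, 0 < (mat i).det
  cm : Fin n → ℍ
  isCM : ∀ i, IsCM (cm i)

/-- The points of a special subvariety: the constant coordinates are the singular moduli
`j (cm i)`, the other coordinates are `j (g_i z_l)`, where `l` is the class of `i`, `g_i = mat i` and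
`z_1, …, z_r` are free parameters in the upper half plane. -/
def SpecialVariety.locus {n r : ℕ} (Z : SpecialVariety n r) : Set (Fin n → ℂ) :=
  {x | ∃ z : Fin r → ℍ, ∀ i, (Z.cls i = none → x i = jj (Z.cm i)) ∧
    ∀ l, Z.cls i = some l → ∃ w : ℍ,
      (w : ℂ) * (Z.mat i 1 0 * z l + Z.mat i 1 1) = Z.mat i 0 0 * z l + Z.mat i 0 1 ∧ x i = jj w}

/-- The CM point `τ` is ordinary at `p`: `τ` is fixed by an integral matrix `M` whose determinant is
a power of `p` and whose trace is prime to `p` (`p` splits in the field `ℚ(τ)` and does not divide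
the conductor). -/
def OrdinaryAt (p : ℕ) (τ : ℍ) : Prop :=
  ∃ (e : ℕ) (M : Matrix (Fin 2) (Fin 2) ℤ), 0 < e ∧ M.det = (p : ℤ) ^ e ∧ ¬ (p : ℤ) ∣ M.trace ∧
    (τ : ℂ) * (M 1 0 * τ + M 1 1) = M 0 0 * τ + M 0 1

/-- `x` and `x'` are the `j`-invariants of isogenous elliptic curves. -/
def Isogenous (x x' : ℂ) : Prop :=
  ∃ (g : Matrix (Fin 2) (Fin 2) ℤ) (τ τ' : ℍ), 0 < g.det ∧
    (τ' : ℂ) * (g 1 0 * τ + g 1 1) = g 0 0 * τ + g 0 1 ∧ jj τ = x ∧ jj τ' = x'

/-- The centre: a point over `K` whose coordinates are singular moduli `s_i = j (τ_i) ≠ 0, 1728`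
and pairwise not isogenous. If `cusp = some c`, then the coordinate `s_c` is the cusp `∞`. -/
structure Centre {K : Type} [Field K] [NumberField K] (σ : K →+* ℂ) (n : ℕ) where
  cusp : Option (Fin n)
  coord : Fin n → K
  τ : Fin n → ℍ
  j_eq : ∀ i, cusp ≠ some i → jj (τ i) = σ (coord i)
  cm : ∀ i, cusp ≠ some i → IsCM (τ i)
  ne_zero : ∀ i, cusp ≠ some i → coord i ≠ 0
  ne_1728 : ∀ i, cusp ≠ some i → coord i ≠ 1728
  not_isogenous : ∀ i k, i ≠ k → cusp ≠ some i → cusp ≠ some k →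
    ¬ Isogenous (jj (τ i)) (jj (τ k))

/-- An equation over `𝓞 K` for `Y` in the coordinates in `J`: `d` is the vector of the largest
exponents, and it is one of the exponents of the equation. -/
structure Equation {K : Type} [Field K] [NumberField K] (σ : K →+* ℂ) {n : ℕ}
    (Y : Set (Fin n → ℂ)) (J : Finset (Fin n)) where
  G : MvPolynomial (Fin n) (𝓞 K)
  d : Fin n →₀ ℕ
  le : ∀ u ∈ G.support, u ≤ d
  supp : d.support ⊆ J
  top : G.coeff d ≠ 0
  eq_zero : ∀ y ∈ Y, MvPolynomial.eval₂ (σ.comp (algebraMap (𝓞 K) K)) y G = 0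

/-- `Y` is in general position at infinity, of dimension at most `m`. -/
def InGeneralPosition {K : Type} [Field K] [NumberField K] (σ : K →+* ℂ) {n : ℕ} (m : ℕ)
    (Y : Set (Fin n → ℂ)) : Prop :=
  ∀ J : Finset (Fin n), J.card = m + 1 → Nonempty (Equation σ Y J)

/-- `X = s + λ Y`. -/
def image {K : Type} [Field K] [NumberField K] {σ : K →+* ℂ} {n : ℕ} (s : Centre σ n)
    (lam : Fin n → K) (Y : Set (Fin n → ℂ)) : Set (Fin n → ℂ) :=
  {x | ∃ y ∈ Y, ∀ i, (s.cusp ≠ some i → x i = jj (s.τ i) + σ (lam i) * y i) ∧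
    (s.cusp = some i → x i * (σ (lam i) * y i) = 1)}

/-- For each special subvariety `Z` of dimension `r`, the points `x` of `X ∩ Z` have transcendence
degree at most `m + r - n` plus the number of the coordinates `i` with `x_i = s_i`: families of
algebraically independent coordinates have at most that many elements. -/
def ZilberPink {K : Type} [Field K] [NumberField K] {σ : K →+* ℂ} {n : ℕ} (s : Centre σ n)
    (X : Set (Fin n → ℂ)) (m : ℕ) : Prop :=
  ∀ (r : ℕ) (Z : SpecialVariety n r), ∀ x ∈ X ∩ Z.locus, ∀ W : Finset (Fin n),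
    AlgebraicIndependent ℚ (fun i : W => x i) →
      n + W.card ≤ m + r + {i | s.cusp ≠ some i ∧ x i = jj (s.τ i)}.ncard

variable {K : Type} [Field K] [NumberField K] {σ : K →+* ℂ} {n : ℕ}

theorem partA (s : Centre σ n) (m : ℕ) (Y : Set (Fin n → ℂ)) (v : HeightOneSpectrum (𝓞 K))
    (p : ℕ) (hp : p.Prime) (hp2 : p ≠ 2) (hpv : (p : 𝓞 K) ∈ v.asIdeal)
    (hord : ∀ i, s.cusp ≠ some i → OrdinaryAt p (s.τ i))
    (h0 : ∀ i, s.cusp ≠ some i → v.valuation K (s.coord i) = 1)
    (h1 : ∀ i, s.cusp ≠ some i → v.valuation K (s.coord i - 1728) = 1)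
    (hY : ∀ J : Finset (Fin n), J.card = m + 1 → ∃ G : Equation σ Y J, G.G.coeff G.d ∉ v.asIdeal)
    (lam : Fin n → K) (hlam : ∀ i, v.valuation K (lam i) < 1 ∧
      v.valuation K (lam i) ^ (p - 1) < v.valuation K p) :
    ZilberPink s (image s lam Y) m := by
  rintro r Z x ⟨⟨y, hy, hxy⟩, hxZ⟩ W hW
  exact Pool.Agent.H882.glob_ord σ v hp hp2 hpv s.cusp s.coord s.τ s.j_eq s.cm hord h0 h1
    (fun i k hi hk hik => s.not_isogenous i k hik hi hk) lam (fun i => (hlam i).1)
    (fun i => (hlam i).2) ⟨Z.cls, Z.surj, Z.mat, Z.det_pos, Z.cm, Z.isCM⟩ hxZ y hxy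
    (fun J hJ => by
      obtain ⟨G, hG⟩ := hY J hJ
      exact ⟨G.G, G.d, G.le, G.supp, hG, G.eq_zero y hy⟩) W hW

theorem partB (s : Centre σ n) : ∃ D : ℕ, 0 < D ∧ ∀ (m : ℕ) (Y : Set (Fin n → ℂ)),
    InGeneralPosition σ m Y → ∃ B : ℕ, ∀ p : ℕ, p.Prime → B < p → p ≡ 1 [MOD D] →
      ∀ v : HeightOneSpectrum (𝓞 K), (p : 𝓞 K) ∈ v.asIdeal → ∀ lam : Fin n → K,
        (∀ i, v.valuation K (lam i) < 1) → ZilberPink s (image s lam Y) m := by
  classical
  have hD : ∀ i : Fin n, ∃ D : ℕ, 0 < D ∧ (s.cusp ≠ some i → ∀ p : ℕ, p.Prime → D + 1 < p →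
      p % (4 * D) = 1 → OrdinaryAt p (s.τ i)) := by
    intro i
    by_cases hi : s.cusp ≠ some i
    · obtain ⟨D, h1, h2⟩ := Pool.Agent.H882.ordAt_of_modEq (s.cm i hi)
      exact ⟨D, h1, fun _ => h2⟩
    · exact ⟨1, one_pos, fun h => absurd h hi⟩
  choose D hD0 hD using hD
  have hb0 : ∀ i : Fin n, ∃ B : ℕ, s.cusp ≠ some i → ∀ p : ℕ, p.Prime → B < p →
      ∀ v : HeightOneSpectrum (𝓞 K), (p : 𝓞 K) ∈ v.asIdeal → v.valuation K (s.coord i) = 1 := by
    intro i
    by_cases hi : s.cusp ≠ some i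
    · obtain ⟨B, hB⟩ := Pool.Agent.H882.exists_unit_bound (s.ne_zero i hi)
      exact ⟨B, fun _ => hB⟩
    · exact ⟨0, fun h => absurd h hi⟩
  have hb1 : ∀ i : Fin n, ∃ B : ℕ, s.cusp ≠ some i → ∀ p : ℕ, p.Prime → B < p →
      ∀ v : HeightOneSpectrum (𝓞 K), (p : 𝓞 K) ∈ v.asIdeal →
        v.valuation K (s.coord i - 1728) = 1 := by
    intro i
    by_cases hi : s.cusp ≠ some i
    · obtain ⟨B, hB⟩ := Pool.Agent.H882.exists_unit_bound (sub_ne_zero.2 (s.ne_1728 i hi))
      exact ⟨B, fun _ => hB⟩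
    · exact ⟨0, fun h => absurd h hi⟩
  choose B₀ hB₀ using hb0
  choose B₁ hB₁ using hb1
  refine ⟨4 * ∏ i, D i, mul_pos (by norm_num) (Finset.prod_pos fun i _ => hD0 i),
    fun m Y hY => ?_⟩
  have hbJ : ∀ J : Finset (Fin n), ∃ B : ℕ, J.card = m + 1 → ∃ G : Equation σ Y J, ∀ p : ℕ,
      p.Prime → B < p → ∀ v : HeightOneSpectrum (𝓞 K), (p : 𝓞 K) ∈ v.asIdeal →
        G.G.coeff G.d ∉ v.asIdeal := by
    intro J
    by_cases hJ : J.card = m + 1
    · obtain ⟨G⟩ := hY J hJ
      have hne : algebraMap (𝓞 K) K (G.G.coeff G.d) ≠ 0 := by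
        rw [Ne, FaithfulSMul.algebraMap_eq_zero_iff]
        exact G.top
      obtain ⟨B, hB⟩ := Pool.Agent.H882.exists_unit_bound hne
      refine ⟨B, fun _ => ⟨G, fun p hp hlt v hpv hmem => ?_⟩⟩
      have h2 := hB p hp hlt v hpv
      have h3 := (v.valuation_lt_one_iff_mem (K := K) _).2 hmem
      exact absurd h2 h3.ne
    · exact ⟨0, fun h => absurd h hJ⟩
  choose BJ hBJ using hbJ
  refine ⟨(Module.finrank ℚ K + 2) + (∑ i, (D i + 1)) + (∑ i, B₀ i) + (∑ i, B₁ i) + ∑ J, BJ J,
    fun p hp hlt hmod v hpv lam hlam => ?_⟩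
  have hDi : ∀ i, D i + 1 ≤ ∑ i, (D i + 1) := fun i =>
    Finset.single_le_sum (f := fun i => D i + 1) (fun _ _ => Nat.zero_le _) (Finset.mem_univ i)
  have hB0i : ∀ i, B₀ i ≤ ∑ i, B₀ i := fun i =>
    Finset.single_le_sum (f := B₀) (fun _ _ => Nat.zero_le _) (Finset.mem_univ i)
  have hB1i : ∀ i, B₁ i ≤ ∑ i, B₁ i := fun i =>
    Finset.single_le_sum (f := B₁) (fun _ _ => Nat.zero_le _) (Finset.mem_univ i)
  have hBJi : ∀ J, BJ J ≤ ∑ J, BJ J := fun J =>
    Finset.single_le_sum (f := BJ) (fun _ _ => Nat.zero_le _) (Finset.mem_univ J)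
  refine partA s m Y v p hp (by omega) hpv ?_ ?_ ?_ ?_ lam fun i => ⟨hlam i, ?_⟩
  · intro i hi
    have h1 := hDi i
    refine hD i hi p hp (by omega) ?_
    have h2 : 4 * D i ∣ 4 * ∏ i, D i :=
      Nat.mul_dvd_mul_left 4 (Finset.dvd_prod_of_mem _ (Finset.mem_univ i))
    have h3 : p % (4 * D i) = 1 % (4 * D i) := hmod.of_dvd h2
    rw [h3]
    have := hD0 i
    exact Nat.mod_eq_of_lt (by omega)
  · intro i hi
    have h1 := hB0i i
    exact hB₀ i hi p hp (by omega) v hpv
  · intro i hi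
    have h1 := hB1i i
    exact hB₁ i hi p hp (by omega) v hpv
  · intro J hJ
    obtain ⟨G, hG⟩ := hBJ J hJ
    have h1 := hBJi J
    exact ⟨G, hG p hp (by omega) v hpv⟩
  · exact Pool.Agent.H882.val_pow_lt_p hp (by omega) (hlam i)

theorem result {K : Type} [Field K] [NumberField K] (σ : K →+* ℂ) {n : ℕ} (s : Centre σ n) :
    -- (A)
    (∀ (m : ℕ) (Y : Set (Fin n → ℂ)) (v : HeightOneSpectrum (𝓞 K)) (p : ℕ), p.Prime → p ≠ 2 →
      (p : 𝓞 K) ∈ v.asIdeal → (∀ i, s.cusp ≠ some i → OrdinaryAt p (s.τ i)) →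
      (∀ i, s.cusp ≠ some i → v.valuation K (s.coord i) = 1) →
      (∀ i, s.cusp ≠ some i → v.valuation K (s.coord i - 1728) = 1) →
      (∀ J : Finset (Fin n), J.card = m + 1 → ∃ G : Equation σ Y J, G.G.coeff G.d ∉ v.asIdeal) →
      ∀ lam : Fin n → K, (∀ i, v.valuation K (lam i) < 1 ∧
        v.valuation K (lam i) ^ (p - 1) < v.valuation K p) → ZilberPink s (image s lam Y) m) ∧
    -- (B)
    (∃ D : ℕ, 0 < D ∧ ∀ (m : ℕ) (Y : Set (Fin n → ℂ)), InGeneralPosition σ m Y →
      ∃ B : ℕ, ∀ p : ℕ, p.Prime → B < p → p ≡ 1 [MOD D] →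
        ∀ v : HeightOneSpectrum (𝓞 K), (p : 𝓞 K) ∈ v.asIdeal → ∀ lam : Fin n → K,
          (∀ i, v.valuation K (lam i) < 1) → ZilberPink s (image s lam Y) m) ∧
    -- (C)
    ∃ E : Set ℕ, (∀ ε : ℝ, 0 < ε → ∃ H₀ : ℕ, ∀ H : ℕ, H₀ ≤ H →
        ({t : ℕ | t ∈ E ∧ t ≤ H}.ncard : ℝ) ≤ ε * H) ∧
      ∀ (m : ℕ) (Y : Set (Fin n → ℂ)), InGeneralPosition σ m Y → ∃ T : ℕ, ∀ t : ℕ, T ≤ t → t ∉ E →
        ∀ c : Fin n → 𝓞 K, ZilberPink s (image s (fun i => (t : K) * algebraMap (𝓞 K) K (c i)) Y) m := by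
  refine ⟨partA s, partB s, ?_⟩
  obtain ⟨D, hD0, hD⟩ := partB s
  have : NeZero D := ⟨hD0.ne'⟩
  obtain ⟨E, hE1, hE2⟩ := Pool.Agent.H882.exists_null
    (fun B t => ∃ p : ℕ, p.Prime ∧ (p : ZMod D) = 1 ∧ B < p ∧ p ∣ t)
    (fun B B' t hle ⟨p, h1, h2, h3, h4⟩ => ⟨p, h1, h2, lt_of_le_of_lt hle h3, h4⟩)
    (fun B ε hε => Pool.Agent.H882.density isUnit_one B hε)
  refine ⟨E, hE1, fun m Y hY => ?_⟩
  obtain ⟨B, hB⟩ := hD m Y hY
  obtain ⟨T, hT⟩ := hE2 B
  refine ⟨T, fun t ht htE c => ?_⟩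
  obtain ⟨p, hp, hpD, hBp, hpt⟩ := hT t ht htE
  obtain ⟨v, hv⟩ := Pool.Agent.H882.exists_prime_above (K := K) hp
  have hmod : p ≡ 1 [MOD D] := by
    rw [← ZMod.natCast_eq_natCast_iff]
    rw [hpD, Nat.cast_one]
  refine hB p hp hBp hmod v hv _ fun i => ?_
  have h1 : ((t : 𝓞 K) * c i) ∈ v.asIdeal := by
    obtain ⟨k, rfl⟩ := hpt
    push_cast
    exact v.asIdeal.mul_mem_right _ (v.asIdeal.mul_mem_right _ hv)
  have h2 := (v.valuation_lt_one_iff_mem (K := K) _).2 h1
  have e : algebraMap (𝓞 K) K ((t : 𝓞 K) * c i) = (t : K) * algebraMap (𝓞 K) K (c i) := by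
    rw [map_mul, map_natCast]
  rw [← e]
  exact h2

end Pool.Agent.Results.MP_d83ecd_ag.HomothetiesAboutCMPoints
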