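import Pool.Agent.H882.CenRes

/-!
# MP_d83ecd_ag: Zilber-Pink for the homothetic images `s + t λ Y` of subvarieties of `Y(1)^n` about one
hundred percent of the integral points `s`

`Y(1)^n` is identified with `ℂ^n` by the elliptic modular function `jj = j = E₄³ / Δ`.

**The subvarieties.** Let `K` be a number field and `σ : K → ℂ`. `Y ⊆ ℂ^n` is a subvariety over `K` of
dimension `m`, or any set, which is in general position at infinity (`InGeneralPosition`): for each
set `J` of `m + 1` coordinates there is an equation `G_J (y_j, j ∈ J) = 0` for `Y`, over `K`, which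
contains the monomial `∏ y_j ^ d_j` in which all the exponents are maximal. (So no `m + 1`
coordinates become infinite at the same point of the closure of `Y` in `(P¹)^n`. This implies that the
dimension of `Y` is at most `m`.) For `s ∈ ℤ^n` and `λ ∈ (𝓞 K)^n` let `s + λ Y` be the set of all `x`
with `x_i = s_i + λ_i y_i` for `y ∈ Y`.

**The conclusions.** `ZilberPink X m Γ`, for sets `Γ_i` of complex numbers, means: if `Z` is a special
subvariety of dimension `r`, `x` a point of `X ∩ Z`, and `I` a set of coordinates with `x_i ∉ Γ_i` for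
`i ∈ I`, then the transcendence degree of `x` is at most `m + r - |I|`. With the set `I` of all
coordinates: each atypical component of an intersection of `X` and a special subvariety is contained
in one of the hypersurfaces `x_i = γ`, `γ ∈ Γ_i`. If the `Γ_i` are finite sets of singular
moduli, then this is the conclusion of Q1 for `X`. `NoAtypical X m` means: the transcendence degree of
all `x ∈ X ∩ Z` is at most `m + r - n` for all special `Z` of dimension `r`. So there are no atypical
intersections at all, and no points of `X` on the special subvarieties of dimension `r < n - m`.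

**Theorem.** Let `n` be given. There are sets `E_p ⊆ (ℤ/p)^n` with `|E_p| ≤ C p^(n - 1/2 + ε)` for all
primes `p` (for each `ε > 0`, with a `C = C(n, ε)`), for each prime `p` and `a ∈ ℤ/p` a set `Γ_{p,a}`
of at most one singular modulus, and a set `N ⊆ ℤ^n × ℕ` of density zero, such that for all number
fields `K`, all `σ`, all `m` and all `Y ⊆ ℂ^n` over `K` in general position at infinity, of dimension
at most `m`, the following holds.
(A) There is `B` such that for all primes `p > B`, all `s ∈ ℤ^n` with `s mod p ∉ E_p` and all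
`λ ∈ (p 𝓞 K)^n`: each atypical component of an intersection of `X = s + λ Y` with a special subvariety is
contained in one of the `n` hypersurfaces `x_i = γ`, `γ ∈ Γ_{p,s_i}` (`ZilberPink`).
(B) For all `(s, t)` outside of `N` (one hundred percent of the pairs of an integral point
and a natural number, which do not depend on `K`, `m`, `Y`) with finitely many exceptions
`|s_i|, t < T(Y)`, and for all `λ ∈ (𝓞 K)^n`: `X = s + t λ Y` has no atypical intersection with
special subvarieties (`NoAtypical`).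

In (A) and (B) the centre `s` is an arbitrary integral point outside of the exceptional sets.
In the earlier results on homothetic images the centre is a CM point (`OrdinaryPlace`,
`HomothetiesAboutCMPoints`), or it has denominators, i.e. it is near to the cusps at some place
(`LargeTranslates`, `RationalTranslates`), or its ordinary coordinates are near to given CM invariants
(`OrdinaryAndMultiplicativeCentres`). Here nothing is assumed on `s`: for one hundred percent of the
integral points there are primes `p` dividing `t` such that all the coordinates are ordinary at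
`p` and pairwise not isogenous modulo `p`.

**Idea of the proof.** By Kronecker's congruence `Φ_p(X, X) = -(X^p - X)² mod p` each residue class
`a mod p` contains the reduction of a singular modulus `j(τ)`, where `τ` is fixed by a matrix of
determinant `p`, with trace `A`, `A² < 4 p`. This replaces Deuring's lifting theorem. If `A ≠ 0`, then
the class is ordinary at `p`, and the classes for two traces `A ≠ ± A'` are not isogenous mod `p`. The
number of classes with given `A` is at most a class number `H(4p - A²) ≪ p^(1/2 + ε)`, and this gives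
`E_p`. `ℂ` is embedded into `ℂ_p` such that the transcendental coordinates are very large. If
`|y_i| ≤ 1`, then `x_i` is in the residue class of `s_i`. By the library's theory of the canonical
isogeny (module `Pool.Agent.N135.ZO`) such `x_i`, `x_k` are not isogenous, and `x_i` is no singular
modulus but the canonical lift, which is `Γ_{p, s_i}`. For (B) one uses `n + 1` primes which divide `t`
and the pigeonhole principle: a singular modulus which is the canonical lift at `p` and `p'` has given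
residues at `p` and `p'`, and this is a condition on `s_i` which is satisfied rarely.
-/

set_option autoImplicit false

namespace Pool.Agent.Results.MP_d83ecd_ag.IntegralCentres

open UpperHalfPlane H294ZP NumberField

/-- A special subvariety of dimension `r` of `Y(1)^n`: a map `cls` from the coordinates onto `r`
classes (`none` for the constant coordinates), an integral matrix of positive determinant for each
coordinate, and a CM point for each coordinate. -/
structure SpecialVariety (n r : ℕ) where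
  cls : Fin n → Option (Fin r)
  surj : ∀ l : Fin r, ∃ i, cls i = some l
  mat : Fin n → Matrix (Fin 2) (Fin 2) ℤ
  det_pos : ∀ i, 0 < (mat i).det
  cm : Fin n → ℍ
  isCM : ∀ i, IsCM (cm i)

/-- The points of a special subvariety: the constant coordinates are the singular moduli
`j (cm i)`, the other coordinates are `j (g_i z_l)`, where `l` is the class of `i`, `g_i = mat i` and
`z_1, …, z_r` are free parameters in the upper half plane. -/
def SpecialVariety.locus {n r : ℕ} (Z : SpecialVariety n r) : Set (Fin n → ℂ) :=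
  {x | ∃ z : Fin r → ℍ, ∀ i, (Z.cls i = none → x i = jj (Z.cm i)) ∧
    ∀ l, Z.cls i = some l → ∃ w : ℍ,
      (w : ℂ) * (Z.mat i 1 0 * z l + Z.mat i 1 1) = Z.mat i 0 0 * z l + Z.mat i 0 1 ∧ x i = jj w}

/-- The singular moduli. -/
def singularModuli : Set ℂ := {x | ∃ τ : ℍ, IsCM τ ∧ jj τ = x}

/-- For each special subvariety `Z` of dimension `r`, each point `x` of `X ∩ Z` and each set `I` of
coordinates such that `x_i ∉ Γ_i` for all `i ∈ I`: families of algebraically independent coordinates
of `x` have at most `m + r - |I|` elements. -/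
def ZilberPink {n : ℕ} (X : Set (Fin n → ℂ)) (m : ℕ) (Γ : Fin n → Set ℂ) : Prop :=
  ∀ (r : ℕ) (Z : SpecialVariety n r), ∀ x ∈ X ∩ Z.locus, ∀ I W : Finset (Fin n),
    (∀ i ∈ I, x i ∉ Γ i) → AlgebraicIndependent ℚ (fun i : W => x i) → I.card + W.card ≤ m + r

/-- For each special subvariety `Z` of dimension `r` and each point `x` of `X ∩ Z`: families of
algebraically independent coordinates of `x` have at most `m + r - n` elements. -/
def NoAtypical {n : ℕ} (X : Set (Fin n → ℂ)) (m : ℕ) : Prop :=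
  ∀ (r : ℕ) (Z : SpecialVariety n r), ∀ x ∈ X ∩ Z.locus, ∀ W : Finset (Fin n),
    AlgebraicIndependent ℚ (fun i : W => x i) → n + W.card ≤ m + r

/-- An equation over `K` for `Y` in the coordinates in `J`: `d` is the vector of the largest
exponents, and it is one of the exponents of the equation. -/
structure Equation {K : Type} [Field K] [NumberField K] (σ : K →+* ℂ) {n : ℕ}
    (Y : Set (Fin n → ℂ)) (J : Finset (Fin n)) where
  G : MvPolynomial (Fin n) K
  d : Fin n →₀ ℕ
  le : ∀ u ∈ G.support, u ≤ d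
  supp : d.support ⊆ J
  top : G.coeff d ≠ 0
  eq_zero : ∀ y ∈ Y, MvPolynomial.eval₂ σ y G = 0

/-- `Y` is in general position at infinity, of dimension at most `m`. -/
def InGeneralPosition {K : Type} [Field K] [NumberField K] (σ : K →+* ℂ) {n : ℕ} (m : ℕ)
    (Y : Set (Fin n → ℂ)) : Prop :=
  ∀ J : Finset (Fin n), J.card = m + 1 → Nonempty (Equation σ Y J)

/-- `X = s + λ Y`. -/
def image {K : Type} [Field K] [NumberField K] (σ : K →+* ℂ) {n : ℕ} (s : Fin n → ℤ)
    (lam : Fin n → 𝓞 K) (Y : Set (Fin n → ℂ)) : Set (Fin n → ℂ) :=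
  {x | ∃ y ∈ Y, ∀ i, x i = (s i : ℂ) + σ (lam i) * y i}

/-- `N` has density zero in `ℤ^n × ℕ`. -/
def DensityZero {n : ℕ} (N : Set ((Fin n → ℤ) × ℕ)) : Prop :=
  ∀ ε : ℝ, 0 < ε → ∃ H₀ : ℕ, ∀ H : ℕ, H₀ ≤ H →
    ({q : (Fin n → ℤ) × ℕ | q ∈ N ∧ (∀ i, |q.1 i| ≤ (H : ℤ)) ∧ q.2 ≤ H}.ncard : ℝ) ≤
      ε * (H : ℝ) ^ (n + 1)

open Pool.Agent.H882

theorem good_primes {K : Type} [Field K] [NumberField K] (σ : K →+* ℂ) {n : ℕ} (m : ℕ)
    (Y : Set (Fin n → ℂ)) (hY : InGeneralPosition σ m Y) :
    ∃ B : ℕ, ∀ p : ℕ, p.Prime → B < p → ∀ J : Finset (Fin n), J.card = m + 1 →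
      ∃ E : Equation σ Y J, (∀ u, PI p (E.G.coeff u)) ∧ PI p (E.G.coeff E.d)⁻¹ := by
  classical
  have hc : ∀ (J : Finset (Fin n)), ∃ B : ℕ, ∀ hJ : J.card = m + 1, ∀ p : ℕ, p.Prime → B < p →
      (∀ u, PI p ((hY J hJ).some.G.coeff u)) ∧
        PI p ((hY J hJ).some.G.coeff (hY J hJ).some.d)⁻¹ := by
    intro J
    by_cases hJ : J.card = m + 1
    · choose B₁ hB₁ using fun u => PI_almost ((hY J hJ).some.G.coeff u)
      obtain ⟨B₂, hB₂⟩ := PI_almost ((hY J hJ).some.G.coeff (hY J hJ).some.d)⁻¹
      refine ⟨(∑ u ∈ (hY J hJ).some.G.support, B₁ u) + B₂, fun _ p hp hlt => ⟨fun u => ?_, ?_⟩⟩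
      · by_cases hu : u ∈ (hY J hJ).some.G.support
        · have h1 : B₁ u ≤ ∑ u ∈ (hY J hJ).some.G.support, B₁ u :=
            Finset.single_le_sum (f := B₁) (fun _ _ => Nat.zero_le _) hu
          exact hB₁ u p hp (by omega)
        · rw [MvPolynomial.notMem_support_iff.1 hu]
          exact PI_zero hp
      · exact hB₂ p hp (by omega)
    · exact ⟨0, fun h => absurd h hJ⟩
  choose B hB using hc
  refine ⟨∑ J, B J, fun p hp hlt J hJ => ?_⟩
  have h1 : B J ≤ ∑ J, B J :=
    Finset.single_le_sum (f := B) (fun _ _ => Nat.zero_le _) (Finset.mem_univ J)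
  exact ⟨(hY J hJ).some, hB J hJ p hp (by omega)⟩

/-- The theorem. -/
theorem result (n : ℕ) : ∃ (E : ∀ p : ℕ, Set (Fin n → ZMod p)) (Γ : ∀ p : ℕ, ZMod p → Set ℂ)
    (N : Set ((Fin n → ℤ) × ℕ)),
    (∀ ε : ℝ, 0 < ε → ∃ C : ℝ, ∀ p : ℕ, p.Prime →
      ((E p).ncard : ℝ) ≤ C * (p : ℝ) ^ ((n : ℝ) - 1 / 2 + ε)) ∧
    (∀ p a, (Γ p a).Subsingleton ∧ Γ p a ⊆ singularModuli) ∧
    DensityZero N ∧
    ∀ (K : Type) [Field K] [NumberField K] (σ : K →+* ℂ) (m : ℕ) (Y : Set (Fin n → ℂ)),
      InGeneralPosition σ m Y →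
      -- (A)
      (∃ B : ℕ, ∀ p : ℕ, p.Prime → B < p → ∀ s : Fin n → ℤ,
        (fun i => (s i : ZMod p)) ∉ E p → ∀ lam : Fin n → 𝓞 K, (∀ i, (p : 𝓞 K) ∣ lam i) →
          ZilberPink (image σ s lam Y) m fun i => Γ p (s i)) ∧
      -- (B)
      ∃ T : ℕ, ∀ (s : Fin n → ℤ) (t : ℕ), 0 < t → (T ≤ t ∨ ∃ i, (T : ℤ) ≤ |s i|) →
        (s, t) ∉ N → ∀ lam : Fin n → 𝓞 K, NoAtypical (image σ s (fun i => (t : 𝓞 K) * lam i) Y) m := by
  classical
  have hdata : ∀ p : ℕ, ∃ (E : Set (Fin n → ZMod p)) (Γ : ZMod p → Set ℂ),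
      (∀ a, (Γ a).Subsingleton ∧ Γ a ⊆ singularModuli) ∧
      (∀ z a b, z ∈ Γ a → z ∈ Γ b → a = b) ∧
      (∀ H : ℕ, (∀ a, (SM p a).ncard ≤ H) →
        E.ncard ≤ (n * (H + 2) + n * n * (18 * H)) * p ^ (n - 1)) ∧
      (p.Prime → 3 < p → ∀ (K : Type) [Field K] [NumberField K] (σ : K →+* ℂ) (m : ℕ)
        (y : Fin n → ℂ),
        (∀ J : Finset (Fin n), J.card = m + 1 → ∃ (F : MvPolynomial (Fin n) K) (d : Fin n →₀ ℕ),
          (∀ u ∈ F.support, u ≤ d) ∧ d.support ⊆ J ∧ F.coeff d ≠ 0 ∧
          (∀ u, PI p (F.coeff u)) ∧ PI p (F.coeff d)⁻¹ ∧ MvPolynomial.eval₂ σ y F = 0) →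
        ∀ (s : Fin n → ℤ), (fun i => (s i : ZMod p)) ∉ E → ∀ (lam : Fin n → 𝓞 K),
        (∀ i, (p : 𝓞 K) ∣ lam i) → ∀ (r : ℕ) (Z : SpecialDatum n r) (x : Fin n → ℂ),
        x ∈ Z.locus → (∀ i, x i = (s i : ℂ) + σ (lam i) * y i) → ∀ (I W : Finset (Fin n)),
        AlgebraicIndependent ℚ (fun i : W => x i) → (∀ i ∈ I, x i ∉ Γ (s i)) →
        I.card + W.card ≤ m + r) := by
    intro p
    by_cases h : p.Prime ∧ 3 < p
    · obtain ⟨E, Γ, h1, h2, h3, h4⟩ := local_data n h.1 h.2
      exact ⟨E, Γ, fun a => ⟨(h1 a).1, fun z hz => (h1 a).2 z hz⟩, h2, h3, fun _ _ => h4⟩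
    · refine ⟨∅, fun _ => ∅, fun a => ⟨Set.subsingleton_empty, Set.empty_subset _⟩,
        fun z a b hz => hz.elim, fun H _ => ?_, fun h1 h2 => absurd ⟨h1, h2⟩ h⟩
      rw [Set.ncard_empty]
      exact Nat.zero_le _
  choose E Γ hΓ hΓ2 hE hglob using hdata
  have hEb : ∀ ε : ℝ, 0 < ε → ∃ C : ℝ, ∀ p : ℕ, p.Prime →
      ((E p).ncard : ℝ) ≤ C * (p : ℝ) ^ ((n : ℝ) - 1 / 2 + ε) := fun ε hε => bound_E E hE hε
  obtain ⟨N, hN, hNB⟩ := null_cen E Γ (small_E E hEb) (fun p _ _ a => (hΓ p a).1)
    (fun p _ _ a b z => hΓ2 p z a b)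
  refine ⟨E, Γ, N, hEb, hΓ, hN, fun K _ _ σ m Y hY => ?_⟩
  obtain ⟨B, hB⟩ := good_primes σ m Y hY
  have hA : ∀ p : ℕ, p.Prime → B + 3 < p → ∀ s : Fin n → ℤ,
      (fun i => (s i : ZMod p)) ∉ E p → ∀ lam : Fin n → 𝓞 K, (∀ i, (p : 𝓞 K) ∣ lam i) →
        ZilberPink (image σ s lam Y) m fun i => Γ p (s i) := by
    rintro p hp hBp s hs lam hlam r Z x ⟨⟨y, hy, hxy⟩, hxZ⟩ I W hI hW
    refine hglob p hp (by omega) K σ m y (fun J hJ => ?_) s hs lam hlam r
      ⟨Z.cls, Z.surj, Z.mat, Z.det_pos, Z.cm, Z.isCM⟩ x hxZ hxy I W hW hI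
    obtain ⟨F, hF1, hF2⟩ := hB p hp (by omega) J hJ
    exact ⟨F.G, F.d, F.le, F.supp, F.top, hF1, hF2, F.eq_zero y hy⟩
  refine ⟨⟨B + 3, hA⟩, ?_⟩
  obtain ⟨T, hT⟩ := hNB (B + 3)
  refine ⟨T, fun s t ht hTt hst lam r Z x hx W hW => ?_⟩
  obtain ⟨f, hfinj, hf, hfΓ⟩ := hT s t ht hTt hst
  have hZ : ∀ l, ZilberPink (image σ s (fun i => (t : 𝓞 K) * lam i) Y) m
      fun i => Γ (f l) (s i) := by
    intro l
    obtain ⟨h1, h2, h3, h4, h5⟩ := hf l
    refine hA (f l) h1 h3 s h5 _ fun i => ?_
    exact Dvd.dvd.mul_right (by exact_mod_cast Nat.cast_dvd_cast (α := 𝓞 K) h4) _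
  by_contra hcon
  have hex : ∀ l : Fin (n + 1), ∃ i : Fin n, x i ∈ Γ (f l) (s i : ZMod (f l)) := by
    intro l
    by_contra hno
    push Not at hno
    apply hcon
    have h1 := hZ l r Z x hx Finset.univ W (fun i _ => hno i) hW
    rwa [Finset.card_univ, Fintype.card_fin] at h1
  choose g hg using hex
  obtain ⟨l, l', hll, hgl⟩ := Fintype.exists_ne_map_eq_of_card_lt g (by simp)
  have h1 := hg l
  have h2 := hg l'
  rw [← hgl] at h2
  exact hfΓ l l' hll (g l) (x (g l)) h1 h2

end Pool.Agent.Results.MP_d83ecd_ag.IntegralCentres
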