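import Pool.Agent.H882.BadScale
import Pool.Agent.H882.BadCount
import Pool.Agent.H882.Almost
import Pool.Agent.H882.MixGlob

/-!
# MP_d83ecd_ag: Zilber-Pink for the homothetic images of subvarieties of any dimension about every
point of `Y(1)^n` whose coordinates have ordinary or multiplicative reduction at one place: the
atypical intersections are contained in the special hypersurfaces through this point

`Y(1)^n` is identified with `ℂ^n` by the elliptic modular function `jj = j = E₄³ / Δ`. Let `K` be a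
number field, `σ : K → ℂ`, and `v` a prime of `K` above `p`.

**The centre** (`Centre`) is a point `s ∈ K^n`. Each coordinate `s_i` is
* multiplicative at `v`: `|s_i|_v > 1` (potentially multiplicative reduction), or
* ordinary at `v` (only for `p ≠ 2`): `s_i` is congruent modulo `v` to an invariant `c_i = j (τ_i)`
  of a CM elliptic curve which is ordinary at `p`, and `c_i` is not congruent to `0`, `1728`. (By a
  theorem of Deuring each `s_i` with good ordinary reduction is of this form, if `K` is replaced by a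
  finite extension. `s_i` itself need not be a CM point.) The elliptic curves with the invariants
  `c_i`, that is, the reductions of those with the invariants `s_i`, are pairwise not isogenous.

**The subvarieties.** `Y ⊆ ℂ^n` is a subvariety over `K` of dimension `m`, or any set, which is in
general position at infinity (`InGeneralPosition`): for each set `J` of `m + 1` coordinates there is
an equation `G_J (y_j, j ∈ J) = 0` for `Y`, over `K`, which contains the monomial `∏ y_j ^ d_j` in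
which all the exponents are maximal. (So no `m + 1` coordinates become infinite at the same point
of the closure of `Y` in `(P¹)^n`. This implies that the dimension of `Y` is at most `m`.) We say
that this holds at the prime `v` (`InGeneralPositionAt`) if no coefficient of `G_J` has a larger
absolute value at `v` than that of `∏ y_j ^ d_j`.

**The images.** For `λ ∈ K^n` let `X = s + λ Y` be the set of all `x` with `x_i = s_i + λ_i y_i` for
`y ∈ Y`.

**The conclusion.** For `t = (N, i, k)` let `H_t` be the special hypersurface of all the `x` for which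
`x_i` and `x_k` are isogenous of degree `N`. `ZilberPink X m Γ T`, for sets `Γ_i` of singular moduli
and a set `T` of triples, means: if `Z` is a special subvariety of dimension `r`, `x` a point of
`X ∩ Z`, and `I` a set of coordinates such that `x_i ∉ Γ_i` for `i ∈ I` and `x ∉ H_t` for
`t = (N, i, k) ∈ T` with `i, k ∈ I`, then the transcendence degree of `x` is at most `m + r - |I|`.
With the set `I` of all coordinates: each atypical component of an intersection of `X` and a special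
subvariety is contained in one of the special hypersurfaces `x_i = γ`, `γ ∈ Γ_i`, and `H_t`, `t ∈ T`.
If the `Γ_i` and `T` are finite, then this is the conclusion of Q1 for `X`.

**Theorem.** Let `s` be a centre.
(A) There are `G` and finite sets `Γ_i` of singular moduli, which depend on the centre only, such
that for all `m`, all `Y` in general position at infinity at `v` and all `λ ∈ K^n` with
`|λ_i|_v < |s_i|_v` for the multiplicative and `|λ_i|_v < 1` for the ordinary coordinates: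
`ZilberPink (s + λ Y) m Γ T` holds for the finite set `T` of all `(N, i, k)` with `N ≤ G`. If
`(p - 1) v(λ_i) > v(p)` for the ordinary coordinates, then this holds with subsets of the `Γ_i` of
at most one element.
(B) For all `m` and all `Y` in general position at infinity, there is `b` such that for all `λ ∈ K^n`
with `v(λ_i) ≥ b`: each atypical component of an intersection of `X = s + λ Y` and a special subvariety
is contained in one of the special hypersurfaces `x_i = s_i`, where `s_i` is a singular modulus, and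
`H_t`, `N ≤ G`, `s ∈ H_t`. So it is contained in one of finitely many special hypersurfaces through `s`.
If the coordinates of `s` are not singular moduli and pairwise not isogenous, then there are no
atypical intersections at all.
(C) Let `c_i`, `i ∈ O`, be singular moduli in `K`, different from `0`, `1728` and pairwise not
isogenous, and `Y` in general position at infinity. For one hundred percent of the
`(a, b) ∈ ℤ^n × ℕ` with `|a_i| ≤ H`, `1 ≤ b ≤ H`, for `H → ∞`, there is `G` such that for all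
`λ ∈ (𝓞 K)^n` the set `X` of all `x` with `x_i = c_i + b λ_i y_i` for `i ∈ O` and
`x_i = a_i / b + λ_i y_i` for `i ∉ O`, `y ∈ Y`, satisfies the conclusion with `Γ_i = {c_i}` for `i ∈ O`
and the finite set `T` of all `(N, i, k)` with `N ≤ G`, `i, k ∉ O`.

**Relation to earlier results.** If all the coordinates of `s` are multiplicative and larger than a
bound which depends on `λ Y`, then (A) follows from the earlier result `LargeTranslates`; `OrdinaryPlace`
and `HomothetiesAboutCMPoints` are about CM points `s` (with radius `(p - 1) v(λ_i) > v(p)`). Here the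
ordinary coordinates of the centre need not be CM points, ordinary and multiplicative coordinates may
occur together, and (B) only needs the special hypersurfaces through `s`.

**Idea of the proof.** `ℂ` is embedded into `ℂ_p`, such that the embedding induces `v` on `K`, is
given on all algebraic numbers, and the transcendental coordinates are very large. If `|y_i| ≤ 1`, then
`x_i` is near to `s_i`. By the theory of the canonical isogeny of `Pool.Agent.N135.ZO` ordinary `x_i`,
`x_k` are not isogenous, and the singular moduli in a closed disc of radius `θ < 1` in an ordinary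
residue class are mapped to one point by a power of the canonical isogeny which depends on `θ`
only. So they are finite in number. For multiplicative coordinates the Tate parameters satisfy `|q(x_i) / q(s_i) - 1| < 1`. If `x_i`, `x_k` are
isogenous, then `q(x_k) ^ B = ζ q(x_i) ^ A` with a root of unity `ζ` of order `g`, where `A` and `B`
are determined by `s`, and `ζ` is in a small disc. So there are finitely many degrees `A B g²`, and for
small `λ` the same relation holds for `s_i`, `s_k`.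
-/

set_option autoImplicit false

namespace Pool.Agent.Results.MP_d83ecd_ag.OrdinaryAndMultiplicativeCentres

open UpperHalfPlane H294ZP NumberField IsDedekindDomain

/-- A special subvariety of dimension `r` of `Y(1)^n`: a map `cls` from the coordinates onto `r`
classes (`none` for the constant coordinates), an integral matrix of positive determinant for each
coordinate, and a CM point for each coordinate. -/
structure SpecialVariety (n r : ℕ) where
  cls : Fin n → Option (Fin r)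
  surj : ∀ l : Fin r, ∃ i, cls i = some l
  mat : Fin n → Matrix (Fin 2) (Fin 2) ℤ
  det_pos : ∀ i, 0 < (mat i).det
  cm : Fin n → ℍ
  isCM : ∀ i, IsCM (cm i)

/-- The points of a special subvariety: the constant coordinates are the singular moduli
`j (cm i)`, the other coordinates are `j (g_i z_l)`, where `l` is the class of `i`, `g_i = mat i` and
`z_1, …, z_r` are free parameters in the upper half plane. -/
def SpecialVariety.locus {n r : ℕ} (Z : SpecialVariety n r) : Set (Fin n → ℂ) :=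
  {x | ∃ z : Fin r → ℍ, ∀ i, (Z.cls i = none → x i = jj (Z.cm i)) ∧
    ∀ l, Z.cls i = some l → ∃ w : ℍ,
      (w : ℂ) * (Z.mat i 1 0 * z l + Z.mat i 1 1) = Z.mat i 0 0 * z l + Z.mat i 0 1 ∧ x i = jj w}

/-- The singular moduli. -/
def singularModuli : Set ℂ := {x | ∃ τ : ℍ, IsCM τ ∧ jj τ = x}

/-- The CM point `τ` is ordinary at `p`: `τ` is fixed by an integral matrix `M` whose determinant is
a power of `p` and whose trace is prime to `p` (`p` splits in the field `ℚ(τ)` and does not divide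
the conductor). -/
def OrdinaryAt (p : ℕ) (τ : ℍ) : Prop :=
  ∃ (e : ℕ) (M : Matrix (Fin 2) (Fin 2) ℤ), 0 < e ∧ M.det = (p : ℤ) ^ e ∧ ¬ (p : ℤ) ∣ M.trace ∧
    (τ : ℂ) * (M 1 0 * τ + M 1 1) = M 0 0 * τ + M 0 1

/-- `x` and `x'` are the `j`-invariants of isogenous elliptic curves. -/
def Isogenous (x x' : ℂ) : Prop :=
  ∃ (g : Matrix (Fin 2) (Fin 2) ℤ) (τ τ' : ℍ), 0 < g.det ∧
    (τ' : ℂ) * (g 1 0 * τ + g 1 1) = g 0 0 * τ + g 0 1 ∧ jj τ = x ∧ jj τ' = x'

/-- `x` and `x'` are the `j`-invariants of elliptic curves which are isogenous of degree `N`. -/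
def IsogenousOfDegree (N : ℕ) (x x' : ℂ) : Prop :=
  ∃ (g : Matrix (Fin 2) (Fin 2) ℤ) (τ τ' : ℍ), g.det = N ∧
    (τ' : ℂ) * (g 1 0 * τ + g 1 1) = g 0 0 * τ + g 0 1 ∧ jj τ = x ∧ jj τ' = x'

/-- The special hypersurface of all `x` for which `x_i` and `x_k` are isogenous of degree `N`, for
`t = (N, i, k)`. -/
def hypersurface {n : ℕ} (t : ℕ × Fin n × Fin n) : Set (Fin n → ℂ) :=
  {x | IsogenousOfDegree t.1 (x t.2.1) (x t.2.2)}

/-- For each special subvariety `Z` of dimension `r`, each point `x` of `X ∩ Z` and each set `I` of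
coordinates such that `x_i ∉ Γ_i` for all `i ∈ I` and `x` is not on the hypersurfaces
`t = (N, i, k) ∈ T` with `i, k ∈ I`: families of algebraically independent coordinates of `x` have at
most `m + r - |I|` elements. -/
def ZilberPink {n : ℕ} (X : Set (Fin n → ℂ)) (m : ℕ) (Γ : Fin n → Set ℂ)
    (T : Set (ℕ × Fin n × Fin n)) : Prop :=
  ∀ (r : ℕ) (Z : SpecialVariety n r), ∀ x ∈ X ∩ Z.locus, ∀ I W : Finset (Fin n),
    (∀ i ∈ I, x i ∉ Γ i) → (∀ t ∈ T, t.2.1 ∈ I → t.2.2 ∈ I → x ∉ hypersurface t) →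
      AlgebraicIndependent ℚ (fun i : W => x i) → I.card + W.card ≤ m + r

/-- The finite set of the triples `(N, i, k)` with `1 ≤ N ≤ G`, `i ≠ k` and `i, k ∉ O`. -/
def bounded {n : ℕ} (O : Finset (Fin n)) (G : ℕ) : Set (ℕ × Fin n × Fin n) :=
  {t | 0 < t.1 ∧ t.1 ≤ G ∧ t.2.1 ≠ t.2.2 ∧ t.2.1 ∉ O ∧ t.2.2 ∉ O}

/-- The centre: a point `s` over `K`; `O` is the set of the ordinary coordinates, the other
coordinates are multiplicative. -/
structure Centre {K : Type} [Field K] [NumberField K] (σ : K →+* ℂ)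
    (v : HeightOneSpectrum (𝓞 K)) (p n : ℕ) where
  s : Fin n → K
  O : Finset (Fin n)
  odd : O.Nonempty → p ≠ 2
  mult : ∀ i, i ∉ O → 1 < v.valuation K (s i)
  c : Fin n → K
  τ : Fin n → ℍ
  j_eq : ∀ i ∈ O, jj (τ i) = σ (c i)
  cm : ∀ i ∈ O, IsCM (τ i)
  ordinary : ∀ i ∈ O, OrdinaryAt p (τ i)
  unit : ∀ i ∈ O, v.valuation K (c i) = 1
  unit' : ∀ i ∈ O, v.valuation K (c i - 1728) = 1
  congr : ∀ i ∈ O, v.valuation K (s i - c i) < 1
  not_isogenous : ∀ i ∈ O, ∀ k ∈ O, i ≠ k → ¬ Isogenous (jj (τ i)) (jj (τ k))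

/-- An equation over `K` for `Y` in the coordinates in `J`: `d` is the vector of the largest
exponents, and it is one of the exponents of the equation. -/
structure Equation {K : Type} [Field K] [NumberField K] (σ : K →+* ℂ) {n : ℕ}
    (Y : Set (Fin n → ℂ)) (J : Finset (Fin n)) where
  G : MvPolynomial (Fin n) K
  d : Fin n →₀ ℕ
  le : ∀ u ∈ G.support, u ≤ d
  supp : d.support ⊆ J
  top : G.coeff d ≠ 0
  eq_zero : ∀ y ∈ Y, MvPolynomial.eval₂ σ y G = 0

/-- `Y` is in general position at infinity, of dimension at most `m`. -/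
def InGeneralPosition {K : Type} [Field K] [NumberField K] (σ : K →+* ℂ) {n : ℕ} (m : ℕ)
    (Y : Set (Fin n → ℂ)) : Prop :=
  ∀ J : Finset (Fin n), J.card = m + 1 → Nonempty (Equation σ Y J)

/-- `Y` is in general position at infinity at the prime `v`, of dimension at most `m`. -/
def InGeneralPositionAt {K : Type} [Field K] [NumberField K] (σ : K →+* ℂ)
    (v : HeightOneSpectrum (𝓞 K)) {n : ℕ} (m : ℕ) (Y : Set (Fin n → ℂ)) : Prop :=
  ∀ J : Finset (Fin n), J.card = m + 1 → ∃ E : Equation σ Y J,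
    ∀ u, v.valuation K (E.G.coeff u) ≤ v.valuation K (E.G.coeff E.d)

/-- `X = s + λ Y`. -/
def image {K : Type} [Field K] [NumberField K] (σ : K →+* ℂ) {n : ℕ} (s lam : Fin n → K)
    (Y : Set (Fin n → ℂ)) : Set (Fin n → ℂ) :=
  {x | ∃ y ∈ Y, ∀ i, x i = σ (s i) + σ (lam i) * y i}

/-- The one hundred percent of the pairs `(a, b)`: the exceptional pairs have density zero. -/
def AlmostAll {n : ℕ} (P : (Fin n → ℤ) → ℕ → Prop) : Prop :=
  ∀ ε : ℝ, 0 < ε → ∃ H₀ : ℕ, ∀ H : ℕ, H₀ ≤ H →
    ({q : (Fin n → ℤ) × ℕ | (∀ i, |q.1 i| ≤ (H : ℤ)) ∧ 0 < q.2 ∧ q.2 ≤ H ∧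
      ¬ P q.1 q.2}.ncard : ℝ) ≤ ε * (H : ℝ) ^ (n + 1)

variable {K : Type} [Field K] [NumberField K] (σ : K →+* ℂ) {n : ℕ}

theorem partAB (v : HeightOneSpectrum (𝓞 K)) {p : ℕ} (hp : p.Prime)
    (hpv : (p : 𝓞 K) ∈ v.asIdeal) (S : Centre σ v p n) :
    ∃ (G b : ℕ) (Γ Γ' : Fin n → Set ℂ), (∀ i, (Γ i).Finite ∧ Γ i ⊆ singularModuli ∧
        (Γ' i).Subsingleton ∧ Γ' i ⊆ Γ i ∧
        (i ∉ S.O → Γ' i = ∅) ∧ (i ∈ S.O → σ (S.s i) ∈ singularModuli → σ (S.s i) ∈ Γ' i)) ∧
      ∀ (m : ℕ) (Y : Set (Fin n → ℂ)), InGeneralPositionAt σ v m Y →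
        ∀ lam : Fin n → K, (∀ i, i ∉ S.O → v.valuation K (lam i) < v.valuation K (S.s i)) →
          (∀ i ∈ S.O, v.valuation K (lam i) < 1) →
          ZilberPink (image σ S.s lam Y) m Γ (bounded S.O G) ∧
          ((∀ i ∈ S.O, v.valuation K (lam i) ^ (p - 1) < v.valuation K (p : K)) →
            ZilberPink (image σ S.s lam Y) m Γ' (bounded S.O G)) ∧
          ((∀ i, v.valuation K (lam i) ≤ WithZero.exp (-(b : ℤ))) →
            ZilberPink (image σ S.s lam Y) m (fun i => {z | z ∈ singularModuli ∧ z = σ (S.s i)})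
              {t ∈ bounded S.O G | (fun i => σ (S.s i)) ∈ hypersurface t}) := by
  classical
  obtain ⟨G, b, Γ, Γ', hΓ, h⟩ := Pool.Agent.H882.mix_glob σ v hp hpv S.O S.odd S.s S.c S.τ S.mult
    S.j_eq S.cm S.ordinary S.unit S.unit' S.congr S.not_isogenous
  refine ⟨G, b, Γ, Γ', fun i => ⟨(hΓ i).1, fun z hz => ((hΓ i).2.1 z hz).2, (hΓ i).2.2.1,
    (hΓ i).2.2.2.1, fun hi => ?_, (hΓ i).2.2.2.2⟩,
    fun m Y hY lam hlam hlamO => ⟨?_, fun hrad => ?_, fun hsm => ?_⟩⟩
  · rw [Set.eq_empty_iff_forall_notMem]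
    exact fun z hz => hi ((hΓ i).2.1 z ((hΓ i).2.2.2.1 hz)).1
  · rintro r Z x ⟨⟨y, hy, hxy⟩, hxZ⟩ I W hIΓ hI hW
    refine h m y (fun J hJ => ?_) lam hlam hlamO r
      ⟨Z.cls, Z.surj, Z.mat, Z.det_pos, Z.cm, Z.isCM⟩ x hxZ hxy I W hW ?_ ?_
    · obtain ⟨E, hE⟩ := hY J hJ
      exact ⟨E.G, E.d, E.le, E.supp, E.top, hE, E.eq_zero y hy⟩
    · intro i hi _ hmem
      exact absurd hmem (hIΓ i hi)
    · intro i hi k hk hiO hkO hik N hN0 hNG hiso
      exact absurd hiso (hI (N, i, k) ⟨hN0, hNG, hik, hiO, hkO⟩ hi hk)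
  · rintro r Z x ⟨⟨y, hy, hxy⟩, hxZ⟩ I W hIΓ hI hW
    refine h m y (fun J hJ => ?_) lam hlam hlamO r
      ⟨Z.cls, Z.surj, Z.mat, Z.det_pos, Z.cm, Z.isCM⟩ x hxZ hxy I W hW ?_ ?_
    · obtain ⟨E, hE⟩ := hY J hJ
      exact ⟨E.G, E.d, E.le, E.supp, E.top, hE, E.eq_zero y hy⟩
    · intro i hi hiO _ hmem
      exact absurd (hmem (hrad i hiO)) (hIΓ i hi)
    · intro i hi k hk hiO hkO hik N hN0 hNG hiso
      exact absurd hiso (hI (N, i, k) ⟨hN0, hNG, hik, hiO, hkO⟩ hi hk)
  · rintro r Z x ⟨⟨y, hy, hxy⟩, hxZ⟩ I W hIΓ hI hW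
    have hsm' : ∀ j, v.valuation K (lam j) * WithZero.exp (b : ℤ) ≤ 1 := by
      intro j
      calc v.valuation K (lam j) * WithZero.exp (b : ℤ)
              ≤ WithZero.exp (-(b : ℤ)) * WithZero.exp (b : ℤ) := mul_le_mul' (hsm j) le_rfl
          _ = 1 := by rw [← WithZero.exp_add, neg_add_cancel, WithZero.exp_zero]
    refine h m y (fun J hJ => ?_) lam hlam hlamO r
      ⟨Z.cls, Z.surj, Z.mat, Z.det_pos, Z.cm, Z.isCM⟩ x hxZ hxy I W hW ?_ ?_
    · obtain ⟨E, hE⟩ := hY J hJ
      exact ⟨E.G, E.d, E.le, E.supp, E.top, hE, E.eq_zero y hy⟩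
    · intro i hi _ hmem _
      refine ⟨hsm', fun heq => ?_⟩
      exact hIΓ i hi ⟨((hΓ i).2.1 _ hmem).2, heq⟩
    · intro i hi k hk hiO hkO hik N hN0 hNG hiso
      refine ⟨hsm', fun hs' => ?_⟩
      exact absurd hiso (hI (N, i, k) ⟨⟨hN0, hNG, hik, hiO, hkO⟩, hs'⟩ hi hk)

theorem partB (v : HeightOneSpectrum (𝓞 K)) {p : ℕ} (hp : p.Prime)
    (hpv : (p : 𝓞 K) ∈ v.asIdeal) (S : Centre σ v p n) :
    ∃ G : ℕ, ∀ (m : ℕ) (Y : Set (Fin n → ℂ)), InGeneralPosition σ m Y → ∃ b : ℕ,
      ∀ lam : Fin n → K, (∀ i, v.valuation K (lam i) ≤ WithZero.exp (-(b : ℤ))) →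
        ZilberPink (image σ S.s lam Y) m (fun i => {z | z ∈ singularModuli ∧ z = σ (S.s i)})
          {t ∈ bounded S.O G | (fun i => σ (S.s i)) ∈ hypersurface t} := by
  classical
  obtain ⟨G, b, _, _, _, h⟩ := partAB σ v hp hpv S
  refine ⟨G, fun m Y hY => ?_⟩
  have hc : ∀ J : Finset (Fin n), ∃ c : ℕ, ∀ hJ : J.card = m + 1, ∀ μ : K,
      WithZero.exp (c : ℤ) ≤ v.valuation K μ → ∀ u, v.valuation K
        ((hY J hJ).some.G.coeff u * μ ^ (∑ i, u i)) ≤
        v.valuation K ((hY J hJ).some.G.coeff (hY J hJ).some.d * μ ^ (∑ i, (hY J hJ).some.d i)) := by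
    intro J
    by_cases hJ : J.card = m + 1
    · obtain ⟨c, hc⟩ := Pool.Agent.H882.exists_scale v (hY J hJ).some.G (hY J hJ).some.d
        (hY J hJ).some.le (hY J hJ).some.top
      exact ⟨c, fun _ => hc⟩
    · exact ⟨0, fun h => absurd h hJ⟩
  choose c hc using hc
  obtain ⟨ϖ, hϖ⟩ := v.valuation_exists_uniformizer K
  have hϖ0 : ϖ ≠ 0 := by
    rintro rfl
    rw [map_zero] at hϖ
    exact WithZero.exp_ne_zero hϖ.symm
  set cc : ℕ := ∑ J, c J with hcc
  have hcle : ∀ J, c J ≤ cc := fun J =>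
    Finset.single_le_sum (f := c) (fun _ _ => Nat.zero_le _) (Finset.mem_univ J)
  set μ : K := ϖ⁻¹ ^ cc with hμ
  have hμ0 : μ ≠ 0 := pow_ne_zero _ (inv_ne_zero hϖ0)
  have hμv : v.valuation K μ = WithZero.exp (cc : ℤ) := by
    rw [hμ, map_pow, map_inv₀, hϖ, ← WithZero.exp_neg, ← WithZero.exp_nsmul]
    congr 1
    simp
  refine ⟨cc + b + 1, fun lam hlam => ?_⟩
  set Y' : Set (Fin n → ℂ) := {y' | (fun i => σ μ * y' i) ∈ Y} with hY'
  have hgen : InGeneralPositionAt σ v m Y' := by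
    intro J hJ
    obtain ⟨F', hF1, hF2⟩ := Pool.Agent.H882.scale_eq σ (hY J hJ).some.G μ
    have hsupp : ∀ u ∈ F'.support, u ∈ (hY J hJ).some.G.support := by
      intro u hu
      rw [MvPolynomial.mem_support_iff] at hu ⊢
      intro h0
      apply hu
      rw [hF1, h0, zero_mul]
    refine ⟨⟨F', (hY J hJ).some.d, fun u hu => (hY J hJ).some.le u (hsupp u hu),
      (hY J hJ).some.supp, ?_, ?_⟩, ?_⟩
    · rw [hF1]
      exact mul_ne_zero (hY J hJ).some.top (pow_ne_zero _ hμ0)
    · intro y' hy'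
      rw [hF2 y' (fun i => σ μ * y' i) (fun _ => rfl)]
      exact (hY J hJ).some.eq_zero _ hy'
    · intro u
      show v.valuation K (F'.coeff u) ≤ v.valuation K (F'.coeff (hY J hJ).some.d)
      rw [hF1, hF1]
      refine hc J hJ μ ?_ u
      rw [hμv, WithZero.exp_le_exp]
      exact_mod_cast hcle J
  have hlam' : ∀ i, v.valuation K (lam i * μ) ≤ WithZero.exp (-((b + 1 : ℕ) : ℤ)) := by
    intro i
    rw [map_mul, hμv]
    calc _ ≤ WithZero.exp (-((cc + b + 1 : ℕ) : ℤ)) * WithZero.exp (cc : ℤ) :=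
          mul_le_mul' (hlam i) le_rfl
      _ = _ := by
          rw [← WithZero.exp_add]
          congr 1
          push_cast
          ring
  have hlt1 : ∀ i, v.valuation K (lam i * μ) < 1 := by
    intro i
    refine (hlam' i).trans_lt ?_
    rw [← WithZero.exp_zero, WithZero.exp_lt_exp]
    push_cast
    omega
  have h1 := (h m Y' hgen (fun i => lam i * μ) (fun i hi => ?_) (fun i _ => hlt1 i)).2.2
    fun i => ?_
  · rintro r Z x ⟨⟨y, hy, hxy⟩, hxZ⟩ I W hIΓ hI hW
    refine h1 r Z x ⟨⟨fun i => (σ μ)⁻¹ * y i, ?_, fun i => ?_⟩, hxZ⟩ I W hIΓ hI hW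
    · show (fun i => σ μ * ((σ μ)⁻¹ * y i)) ∈ Y
      have e : (fun i => σ μ * ((σ μ)⁻¹ * y i)) = y := by
        funext i
        rw [mul_inv_cancel_left₀ ((map_ne_zero σ).2 hμ0)]
      rw [e]
      exact hy
    · rw [hxy i, map_mul, mul_assoc, mul_inv_cancel_left₀ ((map_ne_zero σ).2 hμ0)]
  · exact (hlt1 i).trans (S.mult i hi)
  · refine (hlam' i).trans ?_
    rw [WithZero.exp_le_exp]
    push_cast
    omega

theorem good_places (m : ℕ) (Y : Set (Fin n → ℂ)) (hY : InGeneralPosition σ m Y) :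
    ∃ B : ℕ, ∀ p : ℕ, p.Prime → B < p → ∀ v : HeightOneSpectrum (𝓞 K), (p : 𝓞 K) ∈ v.asIdeal →
      InGeneralPositionAt σ v m Y := by
  classical
  have hc : ∀ (J : Finset (Fin n)) (u : Fin n →₀ ℕ), ∃ B : ℕ, ∀ hJ : J.card = m + 1,
      (hY J hJ).some.G.coeff u ≠ 0 → ∀ p : ℕ, p.Prime → B < p → ∀ v : HeightOneSpectrum (𝓞 K),
        (p : 𝓞 K) ∈ v.asIdeal → v.valuation K ((hY J hJ).some.G.coeff u) = 1 := by
    intro J u
    by_cases hJ : J.card = m + 1
    · by_cases hu : (hY J hJ).some.G.coeff u = 0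
      · exact ⟨0, fun _ h => absurd hu h⟩
      · obtain ⟨B, hB⟩ := Pool.Agent.H882.exists_unit_bound hu
        exact ⟨B, fun _ _ => hB⟩
    · exact ⟨0, fun h => absurd h hJ⟩
  choose B hB using hc
  let BJ : Finset (Fin n) → ℕ := fun J =>
    if hJ : J.card = m + 1 then ∑ u ∈ (hY J hJ).some.G.support, B J u else 0
  refine ⟨∑ J, BJ J, fun p hp hlt v hpv J hJ => ⟨(hY J hJ).some, fun u => ?_⟩⟩
  have h1 : BJ J ≤ ∑ J, BJ J :=
    Finset.single_le_sum (f := BJ) (fun _ _ => Nat.zero_le _) (Finset.mem_univ J)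
  have h2 : BJ J = ∑ u ∈ (hY J hJ).some.G.support, B J u := dif_pos hJ
  have h3 : ∀ u ∈ (hY J hJ).some.G.support, v.valuation K ((hY J hJ).some.G.coeff u) = 1 := by
    intro u hu
    have h4 : B J u ≤ ∑ u ∈ (hY J hJ).some.G.support, B J u :=
      Finset.single_le_sum (f := B J) (fun _ _ => Nat.zero_le _) hu
    exact hB J u hJ (MvPolynomial.mem_support_iff.1 hu) p hp (by omega) v hpv
  rw [h3 _ (MvPolynomial.mem_support_iff.2 (hY J hJ).some.top)]
  by_cases hu : u ∈ (hY J hJ).some.G.support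
  · exact (h3 u hu).le
  · rw [MvPolynomial.notMem_support_iff.1 hu, map_zero]
    exact zero_le

theorem partC (O : Finset (Fin n)) (c : Fin n → K) (τ : Fin n → ℍ)
    (hj : ∀ i ∈ O, jj (τ i) = σ (c i)) (hcm : ∀ i ∈ O, IsCM (τ i)) (hc0 : ∀ i ∈ O, c i ≠ 0)
    (hc1 : ∀ i ∈ O, c i ≠ 1728)
    (hiso : ∀ i ∈ O, ∀ k ∈ O, i ≠ k → ¬ Isogenous (jj (τ i)) (jj (τ k))) (m : ℕ)
    (Y : Set (Fin n → ℂ)) (hY : InGeneralPosition σ m Y) :
    AlmostAll fun (a : Fin n → ℤ) (b : ℕ) => ∃ G : ℕ, ∀ lam : Fin n → 𝓞 K,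
      ZilberPink (image σ (fun i => if i ∈ O then c i else (a i : K) / (b : K))
        (fun i => if i ∈ O then (b : K) * (lam i : K) else (lam i : K)) Y) m
        (fun i => {z | i ∈ O ∧ z = σ (c i)}) (bounded O G) := by
  classical
  obtain ⟨B, hB⟩ := good_places σ m Y hY
  have hD : ∀ i : Fin n, ∃ D : ℕ, 0 < D ∧ (i ∈ O → ∀ p : ℕ, p.Prime → D + 1 < p →
      p % (4 * D) = 1 → OrdinaryAt p (τ i)) := by
    intro i
    by_cases hi : i ∈ O
    · obtain ⟨D, h1, h2⟩ := Pool.Agent.H882.ordAt_of_modEq (hcm i hi)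
      exact ⟨D, h1, fun _ => h2⟩
    · exact ⟨1, one_pos, fun h => absurd h hi⟩
  choose D hD0 hD using hD
  have hb0 : ∀ i : Fin n, ∃ B : ℕ, i ∈ O → ∀ p : ℕ, p.Prime → B < p →
      ∀ v : HeightOneSpectrum (𝓞 K), (p : 𝓞 K) ∈ v.asIdeal → v.valuation K (c i) = 1 := by
    intro i
    by_cases hi : i ∈ O
    · obtain ⟨B, hB⟩ := Pool.Agent.H882.exists_unit_bound (hc0 i hi)
      exact ⟨B, fun _ => hB⟩
    · exact ⟨0, fun h => absurd h hi⟩
  have hb1 : ∀ i : Fin n, ∃ B : ℕ, i ∈ O → ∀ p : ℕ, p.Prime → B < p →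
      ∀ v : HeightOneSpectrum (𝓞 K), (p : 𝓞 K) ∈ v.asIdeal → v.valuation K (c i - 1728) = 1 := by
    intro i
    by_cases hi : i ∈ O
    · obtain ⟨B, hB⟩ := Pool.Agent.H882.exists_unit_bound (sub_ne_zero.2 (hc1 i hi))
      exact ⟨B, fun _ => hB⟩
    · exact ⟨0, fun h => absurd h hi⟩
  choose B₀ hB₀ using hb0
  choose B₁ hB₁ using hb1
  have hDpos : 0 < 4 * ∏ i, D i := mul_pos (by norm_num) (Finset.prod_pos fun i _ => hD0 i)
  have : NeZero (4 * ∏ i, D i) := ⟨hDpos.ne'⟩
  have hDi : ∀ i, D i + 1 ≤ ∑ i, (D i + 1) := fun i =>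
    Finset.single_le_sum (f := fun i => D i + 1) (fun _ _ => Nat.zero_le _) (Finset.mem_univ i)
  have hB0i : ∀ i, B₀ i ≤ ∑ i, B₀ i := fun i =>
    Finset.single_le_sum (f := B₀) (fun _ _ => Nat.zero_le _) (Finset.mem_univ i)
  have hB1i : ∀ i, B₁ i ≤ ∑ i, B₁ i := fun i =>
    Finset.single_le_sum (f := B₁) (fun _ _ => Nat.zero_le _) (Finset.mem_univ i)
  intro ε hε
  obtain ⟨H₀, hH₀⟩ := Pool.Agent.H882.count_bad n
    (B + 2 + (∑ i, (D i + 1)) + (∑ i, B₀ i) + (∑ i, B₁ i)) (4 * ∏ i, D i) hε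
  refine ⟨H₀, fun H hH => le_trans ?_ (hH₀ H hH)⟩
  set bad : Set ((Fin n → ℤ) × ℕ) := {q | (∀ i, |q.1 i| ≤ (H : ℤ)) ∧ 0 < q.2 ∧ q.2 ≤ H ∧
      ¬ ∃ p : ℕ, p.Prime ∧ (p : ZMod (4 * ∏ i, D i)) = 1 ∧
      B + 2 + (∑ i, (D i + 1)) + (∑ i, B₀ i) + (∑ i, B₁ i) < p ∧ p ∣ q.2 ∧
        ∀ i, ¬ (p : ℤ) ∣ q.1 i} with hbad
  have hfin : bad.Finite := by
    refine Set.Finite.subset (((Set.finite_Icc (fun _ : Fin n => -(H : ℤ))
      (fun _ : Fin n => (H : ℤ))).prod (Set.finite_Icc 0 H))) ?_
    rintro ⟨a, b⟩ ⟨h1, h2, h3, -⟩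
    refine ⟨⟨fun i => (abs_le.1 (h1 i)).1, fun i => (abs_le.1 (h1 i)).2⟩, ?_⟩
    exact ⟨Nat.zero_le _, h3⟩
  have hle := Set.ncard_le_ncard (t := bad) (s := {q : (Fin n → ℤ) × ℕ |
      (∀ i, |q.1 i| ≤ (H : ℤ)) ∧ 0 < q.2 ∧ q.2 ≤ H ∧ ¬ ∃ G : ℕ, ∀ lam : Fin n → 𝓞 K,
      ZilberPink (image σ (fun i => if i ∈ O then c i else (q.1 i : K) / (q.2 : K))
        (fun i => if i ∈ O then (q.2 : K) * (lam i : K) else (lam i : K)) Y) m
        (fun i => {z | i ∈ O ∧ z = σ (c i)}) (bounded O G)}) ?_ hfin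
  · exact_mod_cast hle
  · rintro ⟨a, b⟩ ⟨h1, h2, h3, h4⟩
    refine ⟨h1, h2, h3, ?_⟩
    rintro ⟨p, hp, hpD, hBp, hpb, hpa⟩
    apply h4
    simp only at hpb hpa h2 ⊢
    obtain ⟨v, hv⟩ := Pool.Agent.H882.exists_prime_above (K := K) hp
    have : Fact p.Prime := ⟨hp⟩
    have hmod : p ≡ 1 [MOD 4 * ∏ i, D i] := by
      rw [← ZMod.natCast_eq_natCast_iff]
      rw [hpD, Nat.cast_one]
    have ha : ∀ i, v.valuation K ((a i : ℤ) : K) = 1 := by
      intro i
      have e : ((a i : ℤ) : K) = algebraMap (𝓞 K) K ((a i : ℤ) : 𝓞 K) := by simp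
      rw [e, HeightOneSpectrum.valuation_eq_one_iff_notMem]
      intro hmem
      apply hpa i
      have h5 : (((a i).natAbs : ℕ) : 𝓞 K) ∈ v.asIdeal := by
        rcases Int.natAbs_eq (a i) with h | h
        · rw [h] at hmem
          simpa using hmem
        · rw [h, Int.cast_neg] at hmem
          simpa using (neg_mem_iff.1 hmem)
      exact Int.natCast_dvd.2 (Pool.Agent.Y226.ZG.natCast_dvd_of_mem hv h5)
    have hb : v.valuation K ((b : ℕ) : K) ≤ v.valuation K ((p : ℕ) : K) := by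
      obtain ⟨k, rfl⟩ := hpb
      rw [Nat.cast_mul, map_mul]
      have e : ((k : ℕ) : K) = algebraMap (𝓞 K) K ((k : ℕ) : 𝓞 K) := by simp
      calc _ ≤ v.valuation K ((p : ℕ) : K) * 1 := by
            refine mul_le_mul' le_rfl ?_
            rw [e]
            exact HeightOneSpectrum.valuation_le_one v _
        _ = _ := mul_one _
    have hp1 : v.valuation K ((p : ℕ) : K) < 1 := by
      have e : ((p : ℕ) : K) = algebraMap (𝓞 K) K ((p : ℕ) : 𝓞 K) := by simp
      rw [e]
      exact (HeightOneSpectrum.valuation_lt_one_iff_mem (K := K) v _).2 hv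
    have hpne : v.valuation K ((p : ℕ) : K) ≠ 0 := by
      rw [Valuation.ne_zero_iff]
      exact_mod_cast hp.ne_zero
    have hb1 : v.valuation K ((b : ℕ) : K) < 1 := hb.trans_lt hp1
    have hb0 : v.valuation K ((b : ℕ) : K) ≠ 0 := by
      rw [Valuation.ne_zero_iff]
      exact_mod_cast h2.ne'
    have hs : ∀ i, 1 < v.valuation K (((a i : ℤ) : K) / ((b : ℕ) : K)) := by
      intro i
      rw [map_div₀, ha i, one_div]
      exact (one_lt_inv₀ (zero_lt_iff.2 hb0)).2 hb1
    have hlam1 : ∀ lam : 𝓞 K, v.valuation K ((b : K) * (lam : K)) ≤ v.valuation K ((p : ℕ) : K) := by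
      intro lam
      rw [map_mul]
      calc _ ≤ v.valuation K ((p : ℕ) : K) * 1 :=
            mul_le_mul' hb (HeightOneSpectrum.valuation_le_one v lam)
        _ = _ := mul_one _
    let S : Centre σ v p n :=
      { s := fun i => if i ∈ O then c i else ((a i : ℤ) : K) / ((b : ℕ) : K)
        O := O
        odd := fun _ => by omega
        mult := fun i hi => by
          rw [if_neg hi]
          exact hs i
        c := c
        τ := τ
        j_eq := hj
        cm := hcm
        ordinary := fun i hi => by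
          have h5 := hDi i
          refine hD i hi p hp (by omega) ?_
          have h6 : 4 * D i ∣ 4 * ∏ i, D i :=
            Nat.mul_dvd_mul_left 4 (Finset.dvd_prod_of_mem _ (Finset.mem_univ i))
          have h7 : p % (4 * D i) = 1 % (4 * D i) := hmod.of_dvd h6
          rw [h7]
          have := hD0 i
          exact Nat.mod_eq_of_lt (by omega)
        unit := fun i hi => by
          have h5 := hB0i i
          exact hB₀ i hi p hp (by omega) v hv
        unit' := fun i hi => by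
          have h5 := hB1i i
          exact hB₁ i hi p hp (by omega) v hv
        congr := fun i hi => by
          rw [if_pos hi, sub_self, map_zero]
          exact zero_lt_one
        not_isogenous := hiso }
    obtain ⟨G, _, _, Γ, hΓ, hG⟩ := partAB σ v hp hv S
    refine ⟨G, fun lam => ?_⟩
    have hZ := (hG m Y (hB p hp (by omega) v hv)
      (fun i => if i ∈ O then (b : K) * (lam i : K) else (lam i : K)) ?_ ?_).2.1 ?_
    · rintro r Z x hx I W hIΓ hI hW
      refine hZ r Z x hx I W (fun i hi hmem => ?_) hI hW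
      by_cases hiO : i ∈ O
      · have hci : σ (S.s i) = σ (c i) := by
          show σ (if i ∈ O then c i else _) = _
          rw [if_pos hiO]
        have hmem2 : σ (S.s i) ∈ Γ i := (hΓ i).2.2.2.2.2 hiO (by
          rw [hci]
          exact ⟨τ i, hcm i hiO, hj i hiO⟩)
        have h5 := (hΓ i).2.2.1 hmem hmem2
        exact hIΓ i hi ⟨hiO, h5.trans hci⟩
      · rw [(hΓ i).2.2.2.2.1 hiO] at hmem
        exact hmem
    · intro i hi
      rw [if_neg hi]
      refine (HeightOneSpectrum.valuation_le_one v (lam i)).trans_lt ?_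
      exact S.mult i hi
    · intro i hi
      rw [if_pos hi]
      exact (hlam1 _).trans_lt hp1
    · intro i hi
      rw [if_pos hi]
      calc v.valuation K ((b : K) * (lam i : K)) ^ (p - 1) ≤ v.valuation K ((p : ℕ) : K) ^ (p - 1) :=
            pow_le_pow_left₀ zero_le (hlam1 _) _
        _ < v.valuation K ((p : ℕ) : K) ^ 1 := by
            refine pow_lt_pow_right_of_lt_one₀ (zero_lt_iff.2 hpne) hp1 ?_
            omega
        _ = v.valuation K ((p : ℕ) : K) := pow_one _

theorem result {K : Type} [Field K] [NumberField K] (σ : K →+* ℂ) {n : ℕ} :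
    (∀ (v : HeightOneSpectrum (𝓞 K)) (p : ℕ), p.Prime → (p : 𝓞 K) ∈ v.asIdeal →
      ∀ S : Centre σ v p n,
      -- (A)
      (∃ (G : ℕ) (Γ Γ' : Fin n → Set ℂ), (∀ i, (Γ i).Finite ∧ Γ i ⊆ singularModuli ∧
          (Γ' i).Subsingleton ∧ Γ' i ⊆ Γ i) ∧
        ∀ (m : ℕ) (Y : Set (Fin n → ℂ)), InGeneralPositionAt σ v m Y →
          ∀ lam : Fin n → K, (∀ i, i ∉ S.O → v.valuation K (lam i) < v.valuation K (S.s i)) →
            (∀ i ∈ S.O, v.valuation K (lam i) < 1) →
            ZilberPink (image σ S.s lam Y) m Γ (bounded S.O G) ∧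
            ((∀ i ∈ S.O, v.valuation K (lam i) ^ (p - 1) < v.valuation K (p : K)) →
              ZilberPink (image σ S.s lam Y) m Γ' (bounded S.O G))) ∧
      -- (B)
      ∃ G : ℕ, ∀ (m : ℕ) (Y : Set (Fin n → ℂ)), InGeneralPosition σ m Y → ∃ b : ℕ,
        ∀ lam : Fin n → K, (∀ i, v.valuation K (lam i) ≤ WithZero.exp (-(b : ℤ))) →
          ZilberPink (image σ S.s lam Y) m (fun i => {z | z ∈ singularModuli ∧ z = σ (S.s i)})
            {t ∈ bounded S.O G | (fun i => σ (S.s i)) ∈ hypersurface t}) ∧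
    -- (C)
    ∀ (O : Finset (Fin n)) (c : Fin n → K), (∀ i ∈ O, σ (c i) ∈ singularModuli) →
      (∀ i ∈ O, c i ≠ 0 ∧ c i ≠ 1728) →
      (∀ i ∈ O, ∀ k ∈ O, i ≠ k → ¬ Isogenous (σ (c i)) (σ (c k))) →
      ∀ (m : ℕ) (Y : Set (Fin n → ℂ)), InGeneralPosition σ m Y →
        AlmostAll fun (a : Fin n → ℤ) (b : ℕ) => ∃ G : ℕ, ∀ lam : Fin n → 𝓞 K,
          ZilberPink (image σ (fun i => if i ∈ O then c i else (a i : K) / (b : K))
            (fun i => if i ∈ O then (b : K) * (lam i : K) else (lam i : K)) Y) m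
            (fun i => {z | i ∈ O ∧ z = σ (c i)}) (bounded O G) := by
  classical
  refine ⟨fun v p hp hpv S => ⟨?_, partB σ v hp hpv S⟩, fun O c hc hc' hiso m Y hY => ?_⟩
  · obtain ⟨G, _, Γ, Γ', hΓ, h⟩ := partAB σ v hp hpv S
    exact ⟨G, Γ, Γ', fun i => ⟨(hΓ i).1, (hΓ i).2.1, (hΓ i).2.2.1, (hΓ i).2.2.2.1⟩,
      fun m Y hY lam h1 h2 => ⟨(h m Y hY lam h1 h2).1, (h m Y hY lam h1 h2).2.1⟩⟩
  · have hτ : ∀ i : Fin n, ∃ τ : ℍ, i ∈ O → IsCM τ ∧ jj τ = σ (c i) := by
      intro i
      by_cases hi : i ∈ O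
      · obtain ⟨τ, hτ⟩ := hc i hi
        exact ⟨τ, fun _ => hτ⟩
      · exact ⟨UpperHalfPlane.I, fun h => absurd h hi⟩
    choose τ hτ using hτ
    refine partC σ O c τ (fun i hi => (hτ i hi).2) (fun i hi => (hτ i hi).1)
      (fun i hi => (hc' i hi).1) (fun i hi => (hc' i hi).2) (fun i hi k hk hik => ?_) m Y hY
    rw [(hτ i hi).2, (hτ k hk).2]
    exact hiso i hi k hk hik

end Pool.Agent.Results.MP_d83ecd_ag.OrdinaryAndMultiplicativeCentres
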